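import Pool.Agent.K4H5.BC.Deg
import Mathlib.LinearAlgebra.Matrix.Rank
import Mathlib.LinearAlgebra.Matrix.SchurComplement
import Mathlib.LinearAlgebra.Matrix.ToLin
import Mathlib.LinearAlgebra.Dimension.Free

/-!
The reversed characteristic polynomial of a matrix: block triangular matrices and the rank.
-/

set_option autoImplicit false
set_option linter.unusedSectionVars false

open Polynomial

namespace Pool.Agent.K4H5.BD

open Pool.Agent.K4H5.BC Pool.Agent.Y709

section region

variable {K ι : Type} [Field K] [Fintype ι] [DecidableEq ι]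

theorem charpolyRev_good (A : Matrix ι ι K) (good : ι → Prop) [DecidablePred good]
    (ℓ : ι → ℕ) (h : ∀ x' x, ¬ good x' → A x' x ≠ 0 → ℓ x' < ℓ x ∧ ¬ good x) :
    A.charpolyRev = (A.submatrix (Subtype.val : {x // good x} → ι) Subtype.val).charpolyRev := by
  classical
  set M : Matrix ι ι K[X] := 1 - (X : K[X]) • A.map C with hM
  set b : ι → ℕ := fun x => if good x then 0 else ℓ x + 1 with hb
  have hbt : Matrix.BlockTriangular M b := by
    intro i j hij
    have hne : i ≠ j := by
      rintro rfl
      exact lt_irrefl _ hij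
    have hgi : ¬ good i := by
      intro hg
      have : b i = 0 := if_pos hg
      omega
    have hbi : b i = ℓ i + 1 := if_neg hgi
    have hA : A i j = 0 := by
      by_contra hA
      obtain ⟨h1, h2⟩ := h i j hgi hA
      have : b j = ℓ j + 1 := if_neg h2
      omega
    rw [hM, Matrix.sub_apply, Matrix.one_apply_ne hne, Matrix.smul_apply, Matrix.map_apply, hA, C_0,
      smul_zero, sub_zero]
  have hdet : A.charpolyRev = M.det := rfl
  rw [hdet, hbt.det]
  have h1 : ∀ a ∈ Finset.univ.image b, a ≠ 0 → (M.toSquareBlock b a).det = 1 := by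
    intro a _ ha
    have : M.toSquareBlock b a = 1 := by
      refine Matrix.ext fun x y => ?_
      rw [Matrix.toSquareBlock_def, Matrix.of_apply, hM, Matrix.sub_apply, Matrix.smul_apply,
        Matrix.map_apply]
      have hA : A x.1 y.1 = 0 := by
        by_contra hA
        have hgx : ¬ good x.1 := by
          intro hg
          have h2 : b x.1 = 0 := if_pos hg
          exact ha (x.2.symm.trans h2)
        obtain ⟨h3, h4⟩ := h x.1 y.1 hgx hA
        have e1 : b x.1 = ℓ x.1 + 1 := if_neg hgx
        have e2 : b y.1 = ℓ y.1 + 1 := if_neg h4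
        have e3 := x.2
        have e4 := y.2
        omega
      rw [hA, C_0, smul_zero, sub_zero, Matrix.one_apply, Matrix.one_apply]
      by_cases hxy : x = y
      · rw [if_pos hxy, if_pos (by rw [hxy])]
      · rw [if_neg hxy, if_neg (fun h => hxy (Subtype.ext h))]
    rw [this, Matrix.det_one]
  have hmem : ∀ x : ι, b x = 0 ↔ good x := by
    intro x
    show (if good x then 0 else ℓ x + 1) = 0 ↔ good x
    split_ifs with hg
    · simp [hg]
    · simp [hg]
  have h2 : ∏ a ∈ Finset.univ.image b, (M.toSquareBlock b a).det = (M.toSquareBlock b 0).det := by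
    by_cases h0 : 0 ∈ Finset.univ.image b
    · rw [Finset.prod_eq_single_of_mem 0 h0]
      intro a ha hne
      exact h1 a ha hne
    · rw [Finset.prod_eq_one]
      · have he : IsEmpty {x // b x = 0} := by
          refine ⟨fun x => h0 ?_⟩
          rw [Finset.mem_image]
          exact ⟨x.1, Finset.mem_univ _, x.2⟩
        rw [Matrix.det_isEmpty]
      · intro a ha
        refine h1 a ha ?_
        rintro rfl
        exact h0 ha
  rw [h2]
  set e : {x // good x} ≃ {x // b x = 0} := Equiv.subtypeEquivRight fun x => (hmem x).symm with he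
  have h3 : (M.toSquareBlock b 0).submatrix e e =
      1 - (X : K[X]) • (A.submatrix (Subtype.val : {x // good x} → ι) Subtype.val).map C := by
    refine Matrix.ext fun x y => ?_
    rw [Matrix.submatrix_apply, Matrix.toSquareBlock_def, Matrix.of_apply, hM, Matrix.sub_apply,
      Matrix.smul_apply, Matrix.map_apply, Matrix.sub_apply, Matrix.smul_apply, Matrix.map_apply,
      Matrix.submatrix_apply, Matrix.one_apply, Matrix.one_apply]
    have e1 : (e x).1 = x.1 := rfl
    have e2 : (e y).1 = y.1 := rfl
    rw [e1, e2]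
    by_cases hxy : x = y
    · rw [if_pos hxy, if_pos (by rw [hxy])]
    · rw [if_neg hxy, if_neg (fun h => hxy (Subtype.ext h))]
  rw [← Matrix.det_submatrix_equiv_self e, h3]
  rfl

end region

section rank

variable {K : Type} [Field K] {ι : Type} [Fintype ι] [DecidableEq ι]

theorem natDegree_charpolyRev_le_rank (A : Matrix ι ι K) : A.charpolyRev.natDegree ≤ A.rank := by
  classical
  set V := LinearMap.range (Matrix.toLin' A) with hV
  set r := Module.finrank K V with hr
  have hrank : A.rank = r := by
    rw [Matrix.rank, hr, hV]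
    rfl
  let b : Module.Basis (Fin r) K V := Module.finBasisOfFinrankEq K V rfl
  let P : (ι → K) →ₗ[K] (Fin r → K) := b.equivFun.toLinearMap ∘ₗ (Matrix.toLin' A).rangeRestrict
  let Q : (Fin r → K) →ₗ[K] (ι → K) := V.subtype ∘ₗ b.equivFun.symm.toLinearMap
  have hQP : Q ∘ₗ P = Matrix.toLin' A := by
    refine LinearMap.ext fun v => ?_
    show ((b.equivFun.symm (b.equivFun ((Matrix.toLin' A).rangeRestrict v)) : V) : ι → K) = _
    rw [LinearEquiv.symm_apply_apply]
    rfl
  have hA : A = LinearMap.toMatrix' Q * LinearMap.toMatrix' P := by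
    rw [← LinearMap.toMatrix'_comp, hQP, LinearMap.toMatrix'_toLin']
  set B := LinearMap.toMatrix' Q with hB
  set D := LinearMap.toMatrix' P with hD
  have h1 : A.charpolyRev = (D * B).charpolyRev := by
    unfold Matrix.charpolyRev
    rw [hA, Matrix.map_mul, ← Matrix.smul_mul, Matrix.det_one_sub_mul_comm, Matrix.map_mul,
      Matrix.mul_smul]
  rw [h1, hrank]
  have h2 := natDegree_charpolyRev_le (D * B) (fun _ => True) (fun _ => 0) (fun x' x h _ =>
    absurd trivial h)
  refine h2.trans ?_
  rw [Fintype.card_subtype_true, Fintype.card_fin]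

end rank

section prod

variable {R ι : Type} [CommRing R] [Fintype ι] [DecidableEq ι]

theorem mprod_sub (F : ℕ → Matrix ι ι R) (good : ι → Prop) [DecidablePred good]
    (h : ∀ j x' x, good x → F j x' x ≠ 0 → good x') (N : ℕ) :
    (∀ x' x, good x → mprod F N x' x ≠ 0 → good x') ∧
    (mprod F N).submatrix (Subtype.val : {x // good x} → ι) Subtype.val =
      mprod (fun j => (F j).submatrix (Subtype.val : {x // good x} → ι) Subtype.val) N := by
  induction N with
  | zero =>
    constructor
    · intro x' x hx hne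
      have h1 : mprod F 0 = 1 := rfl
      rw [h1, Matrix.one_apply] at hne
      have h2 : x' = x := by
        by_contra h3
        exact hne (if_neg h3)
      rwa [h2]
    · refine Matrix.ext fun x y => ?_
      have h1 : mprod F 0 = 1 := rfl
      have h2 : mprod (fun j => (F j).submatrix (Subtype.val : {x // good x} → ι) Subtype.val) 0 =
        1 := rfl
      rw [h1, h2, Matrix.submatrix_apply, Matrix.one_apply, Matrix.one_apply]
      by_cases hxy : x = y
      · rw [if_pos hxy, if_pos (by rw [hxy])]
      · rw [if_neg hxy, if_neg (fun h => hxy (Subtype.ext h))]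
  | succ N ih =>
    obtain ⟨ih1, ih2⟩ := ih
    constructor
    · intro x' x hx hne
      rw [mprod_succ, Matrix.mul_apply] at hne
      obtain ⟨y, _, hy⟩ := Finset.exists_ne_zero_of_sum_ne_zero hne
      exact h N x' y (ih1 y x hx (right_ne_zero_of_mul hy)) (left_ne_zero_of_mul hy)
    · rw [mprod_succ, mprod_succ, ← ih2]
      refine Matrix.ext fun x y => ?_
      rw [Matrix.submatrix_apply, Matrix.mul_apply, Matrix.mul_apply]
      have h3 : ∑ j, F N x.1 j * mprod F N j y.1 =
          ∑ j ∈ Finset.univ.filter good, F N x.1 j * mprod F N j y.1 := by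
        rw [Finset.sum_filter]
        refine Finset.sum_congr rfl fun j _ => ?_
        split_ifs with hj
        · rfl
        · by_contra hne
          exact hj (ih1 j y.1 y.2 (right_ne_zero_of_mul hne))
      rw [h3]
      exact Finset.sum_subtype _ (fun j => by simp) _

theorem rank_mprod_le {K : Type} [Field K] (F : ℕ → Matrix ι ι K) {i N : ℕ} (hi : i < N) :
    (mprod F N).rank ≤ (F i).rank := by
  induction N with
  | zero => omega
  | succ N ih =>
    rw [mprod_succ]
    rcases Nat.lt_succ_iff_lt_or_eq.1 hi with h | h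
    · exact (Matrix.rank_mul_le_right _ _).trans (ih h)
    · rw [h]
      exact Matrix.rank_mul_le_left _ _

/-- the paths, with integral weights -/
theorem pathZ {q : ℕ} (F : ℕ → Matrix ι ι R) (ℓ : ι → ℤ) (w : ℕ → ℤ)
    (h : ∀ j x' x, F j x' x ≠ 0 → (q : ℤ) * ℓ x' ≤ ℓ x + w j) (N : ℕ) (x' x : ι)
    (hne : mprod F N x' x ≠ 0) :
    (q : ℤ) ^ N * ℓ x' ≤ ℓ x + ∑ i ∈ Finset.range N, (q : ℤ) ^ i * w i := by
  induction N generalizing x' x with
  | zero =>
    have h1 : mprod F 0 = 1 := rfl
    rw [h1, Matrix.one_apply] at hne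
    have h2 : x' = x := by
      by_contra h3
      exact hne (if_neg h3)
    rw [h2, pow_zero, one_mul, Finset.range_zero, Finset.sum_empty, add_zero]
  | succ N ih =>
    rw [mprod_succ, Matrix.mul_apply] at hne
    obtain ⟨y, _, hy⟩ := Finset.exists_ne_zero_of_sum_ne_zero hne
    have h1 := h N x' y (left_ne_zero_of_mul hy)
    have h2 := ih y x (right_ne_zero_of_mul hy)
    rw [Finset.sum_range_succ]
    have hq : (0 : ℤ) ≤ (q : ℤ) ^ N := by positivity
    calc (q : ℤ) ^ (N + 1) * ℓ x' = (q : ℤ) ^ N * (q * ℓ x') := by rw [pow_succ]; ring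
      _ ≤ (q : ℤ) ^ N * (ℓ y + w N) := mul_le_mul_of_nonneg_left h1 hq
      _ = (q : ℤ) ^ N * ℓ y + (q : ℤ) ^ N * w N := by ring
      _ ≤ (ℓ x + ∑ i ∈ Finset.range N, (q : ℤ) ^ i * w i) + (q : ℤ) ^ N * w N :=
        add_le_add_left h2 _
      _ = _ := by ring

theorem sum_wZ {p : ℕ} (hp : 0 < p) (N : ℕ) (m : ℕ → ℕ) (c : ℤ) :
    ∑ i ∈ Finset.range N, (p : ℤ) ^ i * (((m i : ℤ) + ((p : ℤ) - 1)) * c) =
      ((rot p N m 0 : ℤ) + ((p : ℤ) ^ N - 1)) * c := by
  have h1 := geom_range hp N
  have h2 : ((p : ℤ) - 1) * ∑ l ∈ Finset.range N, (p : ℤ) ^ l = (p : ℤ) ^ N - 1 := by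
    have h3 : 1 ≤ p ^ N := Nat.one_le_pow _ _ hp
    have := congrArg (Nat.cast : ℕ → ℤ) h1
    push_cast [Nat.cast_sub hp, Nat.cast_sub h3] at this
    exact this
  unfold rot
  rw [← h2, Finset.mul_sum]
  push_cast
  rw [← Finset.sum_add_distrib, Finset.sum_mul]
  refine Finset.sum_congr rfl fun i _ => ?_
  rw [zero_add]
  ring

end prod

end Pool.Agent.K4H5.BD
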