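import Pool.Agent.K4H5.BD.Image
import Pool.Agent.K4H5.BD.Reg
import Pool.Agent.K4H5.BC.Glob
import Mathlib.FieldTheory.IsAlgClosed.Basic

/-!
The degree of the polynomial of the family and the forms on the branch curve.
-/

set_option autoImplicit false
set_option linter.unusedSectionVars false

open Polynomial

namespace Pool.Agent.K4H5.BD

open Pool.Agent.K4H5.BC Pool.Agent.Y709 Pool.Agent.Y709.Lay Pool.Agent.Y709.Gen

section digits

variable {p F₀ : ℕ} [hp : Fact p.Prime]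

theorem adm_digit (hF₀ : 0 < F₀) {m : ℕ → ℕ} (hm : ∀ i, m (i + F₀) = m i) {D : ℤ}
    (hD : ∀ i, D * (rot p F₀ m i : ℤ) < (p : ℤ) ^ F₀ - 1) (i : ℕ) : D * (m i : ℤ) < p := by
  have hp0 : (0 : ℤ) < p := by exact_mod_cast hp.out.pos
  rcases le_or_gt D 0 with h | h
  · have : D * (m i : ℤ) ≤ 0 := mul_nonpos_of_nonpos_of_nonneg h (by positivity)
    omega
  · obtain ⟨d, rfl⟩ := Int.eq_ofNat_of_zero_le h.le
    have h1 : ∀ i, d * rot p F₀ m i < p ^ F₀ - 1 := by
      intro i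
      have h2 := hD i
      have h3 : 1 ≤ p ^ F₀ := Nat.one_le_pow _ _ hp.out.pos
      have : ((d * rot p F₀ m i : ℕ) : ℤ) < ((p ^ F₀ - 1 : ℕ) : ℤ) := by
        push_cast [Nat.cast_sub h3]
        exact h2
      exact_mod_cast this
    have h2 := digit_small hF₀ hm h1 i
    exact_mod_cast h2

end digits

section bound

variable {k K : Type} [Field k] [Fintype k] [Field K] [Algebra k K] [IsAlgClosed K] {p F₀ a : ℕ}
  [hp : Fact p.Prime] [CharP k p] [CharP K p]

theorem coeff_frF (f : k[X][X]) (j b : ℕ) :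
    (tw2 (frK k K p 1 j) f).coeff b = (f.coeff b).map (frK k K p 1 j) := by
  unfold tw2
  rw [coe_mapRingHom, coeff_map, coe_mapRingHom]

theorem GM_eq (f : k[X][X]) (m : ℕ → ℕ) (j : ℕ) :
    GM K p (fun b : Fin (a + 1) => f.coeff b) m j =
      kA p (m j) (fun i => C (ivf K i)) (fun b : Fin (a + 1) => (tw2 (frK k K p 1 j) f).coeff b) := by
  unfold GM
  simp only [coeff_frF]

/-- the weight of an index -/
def wtx {a m' : ℕ} (w : ℤ × ℤ) (x : Fin m' × (Fin (a + 1) × Unit)) : ℤ :=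
  w.1 * (((x.1 : ℕ) : ℤ) + 1) + w.2 * (((x.2.1 : ℕ) : ℤ) + 1)

theorem entry_wt {f : k[X][X]} {m' : ℕ} {w : ℤ × ℤ} {D : ℤ} (hf : Wle w D f) (m : ℕ → ℕ) (j : ℕ)
    (x' x : Fin m' × (Fin (a + 1) × Unit))
    (hne : kmat p m' (GM K p (fun b : Fin (a + 1) => f.coeff b) m j) x' x ≠ 0) :
    (p : ℤ) * wtx w x' ≤ wtx w x + ((m j : ℤ) + ((p : ℤ) - 1)) * D := by
  rw [GM_eq, entry_eq] at hne
  have h1 : Wle w ((m j + (p - 1) : ℕ) * D) (gA p (m j) (fun i => C (ivf K i))
      (fun b : Fin (a + 1) => (tw2 (frK k K p 1 j) f).coeff b)) := by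
    apply Wle_gA
    intro b l hl
    exact (Wle_tw2 (frK k K p 1 j) w D f).2 hf b l hl
  have h2 : Wle w (w.1 * (x.1 : ℕ) + w.2 * (x.2.1 : ℕ)) (mon K x) := by
    intro e l h
    unfold mon at h
    rw [coeff_C_mul_X_pow] at h
    split_ifs at h with h3
    · rw [coeff_X_pow] at h
      split_ifs at h with h4
      · rw [h3, h4]
      · exact absurd rfl h
    · rw [coeff_zero] at h
      exact absurd rfl h
  have h3 := Wle_Dx (h2.mul h1) _ _ hne
  have h4 : ((p - 1 : ℕ) : ℤ) = (p : ℤ) - 1 := by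
    rw [Nat.cast_sub hp.out.pos]
    rfl
  push_cast at h3
  rw [h4] at h3
  unfold wtx
  linarith

/-- **the degree of the polynomial of the family** -/
theorem natDegree_Del_adj (hF₀ : 0 < F₀) {m : ℕ → ℕ} (hm : ∀ i, m (i + F₀) = m i)
    (hM0 : 0 < rot p F₀ m 0) (𝒟 : ℤ → Prop)
    (h𝒟 : ∀ D, 𝒟 D → ∀ i, D * (rot p F₀ m i : ℤ) < (p : ℤ) ^ F₀ - 1)
    {κ : Type} [Fintype κ] [DecidableEq κ] (g : κ → k[X][X]) (E : κ → ℕ) {f : k[X][X]}
    (hfg : f = ∏ l, g l ^ E l) (hf : f.natDegree ≤ a) (ha : ∀ i, a * m i < p)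
    (h10 : 𝒟 (degT f)) (h01 : 𝒟 f.natDegree) (m' : ℕ) :
    (mprod (fun j => kmat p m' (GM K p (fun b : Fin (a + 1) => f.coeff b) m j))
      F₀).charpolyRev.natDegree ≤
      ∑ l, Module.finrank K (Adj 𝒟 (tw2 (algebraMap k K) f) (tw2 (algebraMap k K) (g l))) := by
  classical
  have hperf : PerfectRing K p := PerfectField.toPerfectRing p
  have hp0 : (0 : ℤ) < p := by exact_mod_cast hp.out.pos
  have hp1 := hp.out.one_lt
  have hmD : ∀ D, 𝒟 D → ∀ i, D * (m i : ℤ) < p := fun D h i => adm_digit hF₀ hm (h𝒟 D h) i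
  set A := fun j => kmat p m' (GM K p (fun b : Fin (a + 1) => f.coeff b) m j) with hA
  set good : Fin m' × (Fin (a + 1) × Unit) → Prop := fun x =>
    ∀ (w : ℤ × ℤ) (D : ℤ), 𝒟 D → Wle w D f → wtx w x ≤ D with hgood
  -- the invariance
  have hinv : ∀ j x' x, good x → A j x' x ≠ 0 → good x' := by
    intro j x' x hx hne w D h1 h2
    have h3 := entry_wt h2 m j x' x hne
    have h4 := hx w D h1 h2
    have h5 := hmD D h1 j
    by_contra h6
    rw [not_le] at h6
    have h7 : (p : ℤ) * (D + 1) ≤ p * wtx w x' := mul_le_mul_of_nonneg_left h6 hp0.le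
    have e1 : (p : ℤ) * (D + 1) = p * D + p := by ring
    have e2 : ((m j : ℤ) + ((p : ℤ) - 1)) * D = D * m j + p * D - D := by ring
    rw [e1] at h7
    rw [e2] at h3
    linarith
  -- the potential
  have hcomp : ∀ (w : ℤ × ℤ) (D : ℤ), 𝒟 D → Wle w D f → ∀ x' x, D < wtx w x' →
      mprod A F₀ x' x ≠ 0 → wtx w x' < wtx w x := by
    intro w D h1 h2 x' x h3 hne
    have h4 := pathZ A (wtx w) (fun i => ((m i : ℤ) + ((p : ℤ) - 1)) * D)
      (fun j x' x h => entry_wt h2 m j x' x h) F₀ x' x hne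
    rw [sum_wZ hp.out.pos] at h4
    have h5 := h𝒟 D h1 0
    have hq : (0 : ℤ) ≤ (p : ℤ) ^ F₀ - 1 := by
      have : (1 : ℤ) ≤ (p : ℤ) ^ F₀ := one_le_pow₀ (by omega)
      omega
    have h6 : ((p : ℤ) ^ F₀ - 1) * 1 ≤ ((p : ℤ) ^ F₀ - 1) * (wtx w x' - D) :=
      mul_le_mul_of_nonneg_left (by omega) hq
    have e1 : (p : ℤ) ^ F₀ * wtx w x' = ((p : ℤ) ^ F₀ - 1) * (wtx w x' - D) +
        ((p : ℤ) ^ F₀ - 1) * D + wtx w x' := by ring
    have e2 : ((rot p F₀ m 0 : ℤ) + ((p : ℤ) ^ F₀ - 1)) * D =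
        D * rot p F₀ m 0 + ((p : ℤ) ^ F₀ - 1) * D := by ring
    rw [e1, e2] at h4
    linarith
  have hwit : ∀ x : Fin m' × (Fin (a + 1) × Unit), ∃ q : (ℤ × ℤ) × ℤ,
      ¬ good x → (𝒟 q.2 ∧ Wle q.1 q.2 f ∧ q.2 < wtx q.1 x) := by
    intro x
    by_cases h : good x
    · exact ⟨((0, 0), 0), fun h' => absurd h h'⟩
    · simp only [hgood, not_forall, not_le] at h
      obtain ⟨w, D, h1, h2, h3⟩ := h
      exact ⟨(w, D), fun _ => ⟨h1, h2, h3⟩⟩
  choose q hq using hwit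
  set ℓ : Fin m' × (Fin (a + 1) × Unit) → ℕ := fun x =>
    ∑ y ∈ Finset.univ.filter (fun y => ¬ good y), (wtx (q y).1 x - (q y).2).toNat with hℓ
  have hpot : ∀ x' x, ¬ good x' → mprod A F₀ x' x ≠ 0 → ℓ x' < ℓ x ∧ ¬ good x := by
    intro x' x hx' hne
    obtain ⟨h1, h2, h3⟩ := hq x' hx'
    have h4 := hcomp _ _ h1 h2 x' x h3 hne
    constructor
    · refine Finset.sum_lt_sum ?_ ⟨x', Finset.mem_filter.2 ⟨Finset.mem_univ _, hx'⟩, by omega⟩
      intro y hy
      obtain ⟨h5, h6, -⟩ := hq y (Finset.mem_filter.1 hy).2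
      by_cases h7 : (q y).2 < wtx (q y).1 x'
      · have := hcomp _ _ h5 h6 x' x h7 hne
        omega
      · omega
    · intro hx
      have := hx _ _ h1 h2
      omega
  rw [charpolyRev_good (mprod A F₀) good ℓ hpot, (mprod_sub A good hinv F₀).2]
  refine (natDegree_charpolyRev_le_rank _).trans ?_
  -- the digit
  obtain ⟨i, hi, hmi⟩ : ∃ i < F₀, m i ≠ 0 := by
    by_contra h
    push Not at h
    have : rot p F₀ m 0 = 0 := by
      unfold rot
      refine Finset.sum_eq_zero fun l hl => ?_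
      rw [zero_add, h l (Finset.mem_range.1 hl), zero_mul]
    omega
  refine (rank_mprod_le _ hi).trans ?_
  obtain ⟨r, hr⟩ : ∃ r, m i = r + 1 := ⟨m i - 1, by omega⟩
  have hrk := rank_le (K := K) (p := p) 𝒟 (a := a) (r := r) (m' := m')
    (fun l => tw2 (frK k K p 1 i) (g l)) E (F := tw2 (frK k K p 1 i) f)
    (by rw [hfg, map_prod]; simp only [map_pow]) (by rw [natDegree_tw2]; exact hf)
    (by rw [← hr]; exact ha i) good
    (by
      intro x hx
      have h1 := hx (0, 1) _ h01 (Wle_natDegree f)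
      unfold wtx at h1
      simp only [zero_mul, zero_add, one_mul] at h1
      have h2 : (x.2.1 : ℕ) + 1 ≤ f.natDegree := by exact_mod_cast h1
      omega)
    (by
      intro w D h1 h2 x hx
      rw [Wle_tw2] at h2
      exact hx w D h1 h2)
    (by
      intro D h1
      have := hmD D h1 i
      rw [hr] at this
      rw [mul_comm]
      exact this)
    (by rw [degT_tw2]; exact h10) (by rw [natDegree_tw2]; exact h01)
  have e0 : A i = kmat p m' (kA p (r + 1) (fun i => C (ivf K i))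
      (fun b : Fin (a + 1) => (tw2 (frK k K p 1 i) f).coeff b)) := by
    rw [hA]
    dsimp only
    rw [GM_eq, hr]
  rw [← e0] at hrk
  refine hrk.trans (le_of_eq ?_)
  refine Finset.sum_congr rfl fun l _ => ?_
  have e1 : ∀ h : k[X][X], tw2 (frobenius K p) (tw2 (frK k K p 1 i) h) =
      tw2 ((iterateFrobeniusEquiv K p (i + 1) : K ≃+* K) : K →+* K) (tw2 (algebraMap k K) h) := by
    intro h
    ext e j
    rw [coeff_tw2, coeff_tw2, coeff_tw2, coeff_tw2, frK_apply (q := p) (pow_one p).symm,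
      frobenius_def]
    show _ = iterateFrobeniusEquiv K p (i + 1) _
    rw [iterateFrobeniusEquiv_apply, ← pow_mul, ← pow_succ, iterateFrobenius_def]
  rw [e1, e1, finrank_tw2]

end bound

end Pool.Agent.K4H5.BD
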