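import Mathlib.Algebra.Polynomial.Expand
import Mathlib.Algebra.CharP.Lemmas
import Mathlib.Algebra.CharP.Algebra

/-!
Rings with an operator of Cartier.
-/

set_option autoImplicit false
set_option linter.unusedSectionVars false

open Polynomial

namespace Pool.Agent.K4H5.BD

/-- a ring with a lift of the identity `E`, the twist and the operator of Cartier -/
structure Car (p : ℕ) (M : Type) [CommRing M] where
  E : M →+* M
  tw : M →+* M
  c : M →+ M
  c_E : ∀ v h, c (E v * h) = v * c h
  pow : ∀ h, h ^ p = E (tw h)

theorem Car.c_E' {p : ℕ} {M : Type} [CommRing M] (D : Car p M) (v h : M) :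
    D.c (h * D.E v) = D.c h * v := by
  rw [mul_comm, D.c_E, mul_comm]

theorem Car.c_pow {p : ℕ} {M : Type} [CommRing M] (D : Car p M) (v h : M) :
    D.c (v ^ p * h) = D.tw v * D.c h := by
  rw [D.pow, D.c_E]

section pol

variable {p : ℕ} {M : Type} [CommRing M]

/-- the operator on polynomials -/
noncomputable def cpol (p : ℕ) (c : M →+ M) (H : M[X]) : M[X] :=
  ∑ i ∈ Finset.range (H.natDegree + 1), monomial i (c (H.coeff (p * i + (p - 1))))

theorem coeff_cpol (hp : 0 < p) (c : M →+ M) (H : M[X]) (i : ℕ) :
    (cpol p c H).coeff i = c (H.coeff (p * i + (p - 1))) := by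
  unfold cpol
  rw [finsetSum_coeff]
  simp only [coeff_monomial]
  rw [Finset.sum_ite_eq']
  split_ifs with h
  · rfl
  · rw [Finset.mem_range, not_lt] at h
    rw [coeff_eq_zero_of_natDegree_lt, map_zero]
    have : i ≤ p * i := Nat.le_mul_of_pos_left i hp
    omega

variable [hp : Fact p.Prime] [CharP M p]

/-- polynomials over a ring with an operator of Cartier -/
noncomputable def Car.poly (D : Car p M) : Car p M[X] where
  E := ((expand M p : M[X] →ₐ[M] M[X]) : M[X] →+* M[X]).comp (mapRingHom D.E)
  tw := mapRingHom D.tw
  c :=
    { toFun := cpol p D.c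
      map_zero' := by
        ext i
        rw [coeff_cpol hp.out.pos, coeff_zero, map_zero, coeff_zero]
      map_add' := by
        intro x y
        ext i
        rw [coeff_cpol hp.out.pos, coeff_add, map_add, coeff_add, coeff_cpol hp.out.pos,
          coeff_cpol hp.out.pos] }
  c_E := by
    intro v h
    show cpol p D.c (expand M p (v.map D.E) * h) = v * cpol p D.c h
    have hadd : ∀ x y : M[X], cpol p D.c (x + y) = cpol p D.c x + cpol p D.c y := by
      intro x y
      ext i
      rw [coeff_cpol hp.out.pos, coeff_add, map_add, coeff_add, coeff_cpol hp.out.pos,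
        coeff_cpol hp.out.pos]
    induction v using Polynomial.induction_on' with
    | add a b ha hb => rw [Polynomial.map_add, map_add, add_mul, hadd, ha, hb, add_mul]
    | monomial n a =>
      ext i
      have hp1 := hp.out.one_lt
      rw [coeff_cpol hp.out.pos, map_monomial, expand_monomial, ← C_mul_X_pow_eq_monomial,
        ← C_mul_X_pow_eq_monomial, mul_assoc, mul_assoc, coeff_C_mul, coeff_C_mul,
        coeff_X_pow_mul', coeff_X_pow_mul', coeff_cpol hp.out.pos]
      by_cases hn : n ≤ i
      · have h1 : n * p ≤ p * i := by
          rw [mul_comm n p]; exact Nat.mul_le_mul_left p hn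
        rw [if_pos (by omega), if_pos hn, D.c_E]
        congr 3
        rw [Nat.mul_sub]
        rw [mul_comm n p] at h1 ⊢
        omega
      · have h1 : p * (i + 1) ≤ n * p := by
          rw [mul_comm n p]; exact Nat.mul_le_mul_left p (by omega)
        rw [Nat.mul_add, mul_one] at h1
        rw [if_neg (by omega), if_neg hn, mul_zero, mul_zero, map_zero]
  pow := by
    intro h
    show h ^ p = expand M p ((h.map D.tw).map D.E)
    have h1 : (D.E.comp D.tw) = frobenius M p := by
      refine RingHom.ext fun x => ?_
      rw [RingHom.comp_apply, ← D.pow, frobenius_def]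
    rw [map_map, h1, ← map_expand, map_frobenius_expand]

theorem Car.poly_E (D : Car p M) (v : M[X]) : D.poly.E v = expand M p (v.map D.E) := rfl

theorem Car.poly_tw (D : Car p M) (v : M[X]) : D.poly.tw v = v.map D.tw := rfl

theorem Car.coeff_c (D : Car p M) (H : M[X]) (i : ℕ) :
    (D.poly.c H).coeff i = D.c (H.coeff (p * i + (p - 1))) :=
  coeff_cpol hp.out.pos _ _ _

/-- the products of polynomials in `x ^ p` and of polynomials of small degree are killed -/
theorem Car.c_expand (D : Car p M) (v h : M[X]) (hh : h.natDegree + 1 < p) :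
    D.poly.c (expand M p v * h) = 0 := by
  induction v using Polynomial.induction_on' with
  | add a b ha hb => rw [map_add, add_mul, map_add, ha, hb, add_zero]
  | monomial n a =>
    ext i
    rw [D.coeff_c, expand_monomial, ← C_mul_X_pow_eq_monomial, mul_assoc, coeff_C_mul,
        coeff_X_pow_mul', coeff_zero]
    split_ifs with h1
    · rw [coeff_eq_zero_of_natDegree_lt, mul_zero, map_zero]
      have h2 : ∃ r, p * i + (p - 1) - n * p = p * r + (p - 1) := by
        refine ⟨i - n, ?_⟩
        have hn : n ≤ i := by
          by_contra h3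
          have h4 : p * (i + 1) ≤ n * p := by
            rw [mul_comm n p]; exact Nat.mul_le_mul_left p (by omega)
          have := hp.out.pos
          rw [Nat.mul_add, mul_one] at h4
          omega
        have h1' : n * p ≤ p * i := by
          rw [mul_comm n p]; exact Nat.mul_le_mul_left p hn
        rw [Nat.mul_sub]
        rw [mul_comm n p] at h1' ⊢
        omega
      obtain ⟨r, hr⟩ := h2
      rw [hr]
      omega
    · rw [mul_zero, map_zero]

/-- constants -/
theorem Car.c_C_mul (D : Car p M) (v : M) (h : M[X]) :
    D.poly.c (C (D.E v) * h) = C v * D.poly.c h := by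
  ext i
  rw [D.coeff_c, coeff_C_mul, D.c_E, coeff_C_mul, D.coeff_c]

end pol

section base

variable {p : ℕ} [hp : Fact p.Prime] {K : Type} [Field K] [CharP K p]

/-- the base field -/
noncomputable def Car.base (K : Type) [Field K] (p : ℕ) [Fact p.Prime] [CharP K p] : Car p K where
  E := RingHom.id K
  tw := frobenius K p
  c := AddMonoidHom.id K
  c_E := fun _ _ => rfl
  pow := fun _ => rfl

end base

end Pool.Agent.K4H5.BD
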