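import Pool.Agent.K4H5.BD.Wt
import Mathlib.FieldTheory.Perfect
import Mathlib.LinearAlgebra.Dimension.Finrank
import Mathlib.LinearAlgebra.Basis.VectorSpace

/-!
The differential forms on a plane curve.
-/

set_option autoImplicit false
set_option linter.unusedSectionVars false

open Polynomial

namespace Pool.Agent.K4H5.BD

section forms

variable {K : Type} [Field K]

/-- the degree in `t` -/
noncomputable def degT (g : K[X][X]) : ℕ := g.support.sup fun e => (g.coeff e).natDegree

theorem natDegree_le_degT (g : K[X][X]) (e : ℕ) : (g.coeff e).natDegree ≤ degT g := by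
  by_cases h : g.coeff e = 0
  · rw [h, natDegree_zero]
    exact Nat.zero_le _
  · exact Finset.le_sup (f := fun e => (g.coeff e).natDegree) (mem_support_iff.2 h)

theorem Wle_degT (g : K[X][X]) : Wle (1, 0) (degT g) g := by
  intro e j h
  have h1 := le_natDegree_of_ne_zero h
  have h2 := natDegree_le_degT g e
  rw [one_mul, zero_mul, add_zero]
  exact_mod_cast h1.trans h2

theorem Wle_natDegree (g : K[X][X]) : Wle (0, 1) g.natDegree g := by
  intro e j h
  have h1 : g.coeff e ≠ 0 := by
    intro h2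
    rw [h2, coeff_zero] at h
    exact h rfl
  have h2 := le_natDegree_of_ne_zero h1
  rw [one_mul, zero_mul, zero_add]
  exact_mod_cast h2

/-- the differential form `u dt / ∂ₓg` at a point of the curve `g = 0`, in the form of a multiple of
`dz / z` -/
noncomputable def form (g u : K[X][X]) (T Y : LaurentSeries K) : LaurentSeries K :=
  val T Y u * th T / val T Y (derivative g)

theorem form_add (g u v : K[X][X]) (T Y : LaurentSeries K) :
    form g (u + v) T Y = form g u T Y + form g v T Y := by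
  unfold form
  rw [map_add, add_mul, add_div]

/-- the polynomials `u` with a form `u dt / ∂ₓg` without poles at the finite points, and with at most
simple poles at infinity -/
noncomputable def Adj (𝒟 : ℤ → Prop) (f g : K[X][X]) : Submodule K K[X][X] where
  carrier := {u | (∀ e j : ℕ, (u.coeff e).coeff j ≠ 0 → e < g.natDegree ∧ j < degT g) ∧
    ∀ T Y : LaurentSeries K, val T Y g = 0 →
      (lo 0 T → lo 0 Y → lo 1 (form g u T Y)) ∧
      (∀ α β D : ℤ, 𝒟 D → lo (-α) T → lo (-β) Y → Wle (α, β) D f → lo 0 (form g u T Y))}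
  add_mem' := by
    rintro u v ⟨hu1, hu2⟩ ⟨hv1, hv2⟩
    refine ⟨?_, ?_⟩
    · intro e j h
      rw [coeff_add, coeff_add] at h
      by_cases h1 : (u.coeff e).coeff j = 0
      · refine hv1 e j fun h2 => h ?_
        rw [h1, h2, add_zero]
      · exact hu1 e j h1
    · intro T Y h
      rw [form_add]
      exact ⟨fun h1 h2 => lo_add ((hu2 T Y h).1 h1 h2) ((hv2 T Y h).1 h1 h2),
        fun α β D h1 h2 h3 h4 => lo_add ((hu2 T Y h).2 α β D h1 h2 h3 h4)
          ((hv2 T Y h).2 α β D h1 h2 h3 h4)⟩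
  zero_mem' := by
    refine ⟨?_, ?_⟩
    · intro e j h
      rw [coeff_zero, coeff_zero] at h
      exact absurd rfl h
    · intro T Y h
      have : form g 0 T Y = 0 := by
        unfold form
        rw [map_zero, zero_mul, zero_div]
      rw [this]
      exact ⟨fun _ _ => lo_zero _, fun _ _ _ _ _ _ _ => lo_zero _⟩
  smul_mem' := by
    rintro c u ⟨hu1, hu2⟩
    have e1 : c • u = C (C c) * u := by
      ext e j
      rw [coeff_smul, coeff_smul, coeff_C_mul, coeff_C_mul, smul_eq_mul]
    refine ⟨?_, ?_⟩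
    · intro e j h
      refine hu1 e j fun h2 => h ?_
      rw [coeff_smul, coeff_smul, h2, smul_zero]
    · intro T Y h
      have e2 : form g (c • u) T Y = HahnSeries.C c * form g u T Y := by
        unfold form
        have : val T Y (C (C c)) = HahnSeries.C c := by
          unfold val
          rw [coe_eval₂RingHom, eval₂_C, evT_C]
        rw [e1, map_mul, this]
        ring
      rw [e2]
      refine ⟨fun h1 h2 => ?_, fun α β D h1 h2 h3 h4 => ?_⟩
      · have := lo_mul (lo_C c) ((hu2 T Y h).1 h1 h2)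
        rwa [zero_add] at this
      · have := lo_mul (lo_C c) ((hu2 T Y h).2 α β D h1 h2 h3 h4)
        rwa [zero_add] at this

theorem mem_Adj {𝒟 : ℤ → Prop} {f g u : K[X][X]} : u ∈ Adj 𝒟 f g ↔
    (∀ e j : ℕ, (u.coeff e).coeff j ≠ 0 → e < g.natDegree ∧ j < degT g) ∧
    ∀ T Y : LaurentSeries K, val T Y g = 0 →
      (lo 0 T → lo 0 Y → lo 1 (form g u T Y)) ∧
      (∀ α β D : ℤ, 𝒟 D → lo (-α) T → lo (-β) Y → Wle (α, β) D f → lo 0 (form g u T Y)) := Iff.rfl

/-- the coefficients in a rectangle -/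
noncomputable def cf (K : Type) [Field K] (a b : ℕ) : K[X][X] →ₗ[K] (Fin a × Fin b → K) where
  toFun u x := (u.coeff x.1).coeff x.2
  map_add' u v := by
    funext x
    show ((u + v).coeff x.1).coeff x.2 = _
    rw [coeff_add, coeff_add]
    rfl
  map_smul' c u := by
    funext x
    show ((c • u).coeff x.1).coeff x.2 = _
    rw [coeff_smul, coeff_smul]
    rfl

instance finite_Adj (𝒟 : ℤ → Prop) (f g : K[X][X]) : Module.Finite K (Adj 𝒟 f g) := by
  refine Module.Finite.of_injective ((cf K g.natDegree (degT g)).comp (Adj 𝒟 f g).subtype) ?_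
  rw [injective_iff_map_eq_zero]
  rintro ⟨u, hu⟩ h
  have h1 := (mem_Adj.1 hu).1
  refine Subtype.ext ?_
  show u = 0
  ext e j
  rw [coeff_zero, coeff_zero]
  by_contra hne
  obtain ⟨h2, h3⟩ := h1 e j hne
  exact hne (congrFun h (⟨e, h2⟩, ⟨j, h3⟩))

instance free_Adj (𝒟 : ℤ → Prop) (f g : K[X][X]) : Module.Free K (Adj 𝒟 f g) :=
  @Module.Free.of_divisionRing K (Adj 𝒟 f g) _ (Submodule.addCommGroup (Adj 𝒟 f g))
    (Adj 𝒟 f g).module

end forms

section twist

variable {K : Type} [Field K]

/-- the twist of a polynomial in two variables -/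
noncomputable def tw2 {K' : Type} [Field K'] (σ : K →+* K') : K[X][X] →+* K'[X][X] :=
  mapRingHom (mapRingHom σ)

theorem coeff_tw2 {K' : Type} [Field K'] (σ : K →+* K') (g : K[X][X]) (e j : ℕ) :
    ((tw2 σ g).coeff e).coeff j = σ ((g.coeff e).coeff j) := by
  unfold tw2
  rw [coe_mapRingHom, coeff_map, coe_mapRingHom, coeff_map]

theorem natDegree_tw2 {K' : Type} [Field K'] (σ : K →+* K') (g : K[X][X]) :
    (tw2 σ g).natDegree = g.natDegree := by
  unfold tw2
  rw [coe_mapRingHom, natDegree_map_eq_of_injective (Polynomial.map_injective σ σ.injective)]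

theorem degT_tw2 {K' : Type} [Field K'] (σ : K →+* K') (g : K[X][X]) :
    degT (tw2 σ g) = degT g := by
  unfold degT tw2
  rw [coe_mapRingHom, support_map_of_injective _ (Polynomial.map_injective σ σ.injective)]
  refine Finset.sup_congr rfl fun e _ => ?_
  rw [coeff_map, coe_mapRingHom, natDegree_map_eq_of_injective σ.injective]

theorem Wle_tw2 {K' : Type} [Field K'] (σ : K →+* K') (w : ℤ × ℤ) (D : ℤ) (g : K[X][X]) :
    Wle w D (tw2 σ g) ↔ Wle w D g := by
  unfold Wle
  refine forall_congr' fun e => forall_congr' fun j => ?_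
  rw [coeff_tw2, Ne, map_eq_zero_iff σ σ.injective]

theorem derivative_tw2 {K' : Type} [Field K'] (σ : K →+* K') (g : K[X][X]) :
    derivative (tw2 σ g) = tw2 σ (derivative g) := by
  unfold tw2
  rw [coe_mapRingHom, derivative_map]

theorem val_tw2 {K' : Type} [Field K'] (σ : K →+* K') (g : K[X][X]) (T Y : LaurentSeries K) :
    val (sg σ T) (sg σ Y) (tw2 σ g) = sg σ (val T Y g) := by
  have h : (val (sg σ T) (sg σ Y)).comp (tw2 σ) = (sg σ).comp (val T Y) := by
    refine Polynomial.ringHom_ext ?_ ?_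
    · intro c
      rw [RingHom.comp_apply, RingHom.comp_apply]
      unfold val tw2
      rw [coe_mapRingHom, map_C, coe_eval₂RingHom, eval₂_C, coe_eval₂RingHom, eval₂_C]
      have h1 : (evT (sg σ T)).comp (mapRingHom σ) = (sg σ).comp (evT T) := by
        refine Polynomial.ringHom_ext ?_ ?_
        · intro a
          rw [RingHom.comp_apply, RingHom.comp_apply, coe_mapRingHom, map_C, evT_C, evT_C, sg_C]
        · rw [RingHom.comp_apply, RingHom.comp_apply, coe_mapRingHom, map_X, evT_X, evT_X]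
      exact RingHom.congr_fun h1 c
    · rw [RingHom.comp_apply, RingHom.comp_apply]
      unfold val tw2
      rw [coe_mapRingHom, map_X, coe_eval₂RingHom, eval₂_X, coe_eval₂RingHom, eval₂_X]
  exact RingHom.congr_fun h g

theorem form_tw2 {K' : Type} [Field K'] (σ : K →+* K') (g u : K[X][X]) (T Y : LaurentSeries K) :
    form (tw2 σ g) (tw2 σ u) (sg σ T) (sg σ Y) = sg σ (form g u T Y) := by
  unfold form
  rw [derivative_tw2, val_tw2, val_tw2, th_sg, map_div₀, map_mul]

theorem lo_sg_iff {K' : Type} [Field K'] (σ : K →+* K') {N : ℤ} {x : LaurentSeries K} :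
    lo N (sg σ x) ↔ lo N x := by
  refine ⟨fun h n hn => ?_, lo_sg σ⟩
  have := h n hn
  rwa [coeff_sg, map_eq_zero_iff σ σ.injective] at this

theorem sg_surj {K' : Type} [Field K'] (σ : K ≃+* K') (x : LaurentSeries K') :
    ∃ y : LaurentSeries K, sg (σ : K →+* K') y = x := by
  refine ⟨sg (σ.symm : K' →+* K) x, ?_⟩
  ext n
  rw [coeff_sg, coeff_sg]
  exact σ.apply_symm_apply _

theorem tw2_surj {K' : Type} [Field K'] (σ : K ≃+* K') (x : K'[X][X]) :
    ∃ y : K[X][X], tw2 (σ : K →+* K') y = x := by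
  refine ⟨tw2 (σ.symm : K' →+* K) x, ?_⟩
  ext e j
  rw [coeff_tw2, coeff_tw2]
  exact σ.apply_symm_apply _

theorem tw2_inj {K' : Type} [Field K'] (σ : K →+* K') : Function.Injective (tw2 σ) := by
  unfold tw2
  exact Polynomial.map_injective _ (Polynomial.map_injective σ σ.injective)

theorem Adj_tw2 (σ : K ≃+* K) (𝒟 : ℤ → Prop) (f g u : K[X][X]) :
    tw2 (σ : K →+* K) u ∈ Adj 𝒟 (tw2 (σ : K →+* K) f) (tw2 (σ : K →+* K) g) ↔ u ∈ Adj 𝒟 f g := by
  rw [mem_Adj, mem_Adj, natDegree_tw2, degT_tw2]
  refine and_congr ?_ ?_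
  · refine forall_congr' fun e => forall_congr' fun j => ?_
    rw [coeff_tw2, Ne, map_eq_zero_iff (σ : K →+* K) (σ : K →+* K).injective]
  · constructor
    · intro h T Y h0
      have h1 := h (sg (σ : K →+* K) T) (sg (σ : K →+* K) Y) (by rw [val_tw2, h0, map_zero])
      rw [form_tw2] at h1
      simp only [lo_sg_iff, Wle_tw2] at h1
      exact h1
    · intro h T Y h0
      obtain ⟨T', rfl⟩ := sg_surj σ T
      obtain ⟨Y', rfl⟩ := sg_surj σ Y
      rw [val_tw2] at h0
      have h2 : Function.Injective (sg (σ : K →+* K)) := by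
        intro x y hxy
        ext n
        have := congrArg (fun z => HahnSeries.coeff z n) hxy
        exact (σ : K →+* K).injective this
      have h1 := h T' Y' (h2 (by rw [h0, map_zero]))
      rw [form_tw2]
      simp only [lo_sg_iff, Wle_tw2]
      exact h1

/-- the twist does not change the dimension -/
theorem finrank_tw2 (σ : K ≃+* K) (𝒟 : ℤ → Prop) (f g : K[X][X]) :
    Module.finrank K (Adj 𝒟 (tw2 (σ : K →+* K) f) (tw2 (σ : K →+* K) g)) =
      Module.finrank K (Adj 𝒟 f g) := by
  let j : Adj 𝒟 f g ≃+ Adj 𝒟 (tw2 (σ : K →+* K) f) (tw2 (σ : K →+* K) g) :=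
    AddEquiv.ofBijective
      ({ toFun := fun u => ⟨tw2 (σ : K →+* K) u.1, (Adj_tw2 σ 𝒟 f g u.1).2 u.2⟩
         map_zero' := Subtype.ext (map_zero _)
         map_add' := fun x y => Subtype.ext (map_add _ _ _) } :
        Adj 𝒟 f g →+ Adj 𝒟 (tw2 (σ : K →+* K) f) (tw2 (σ : K →+* K) g)) (by
      constructor
      · intro x y h
        exact Subtype.ext (tw2_inj _ (congrArg Subtype.val h))
      · rintro ⟨v, hv⟩
        obtain ⟨u, rfl⟩ := tw2_surj σ v
        exact ⟨⟨u, (Adj_tw2 σ 𝒟 f g u).1 hv⟩, rfl⟩)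
  have h := rank_eq_of_equiv_equiv (R := K) (R' := K) (σ : K → K) j σ.bijective (by
    intro c x
    refine Subtype.ext ?_
    show tw2 (σ : K →+* K) (c • x.1) = σ c • tw2 (σ : K →+* K) x.1
    ext e j
    rw [coeff_tw2, coeff_smul, coeff_smul, coeff_smul, coeff_smul, coeff_tw2, smul_eq_mul,
      smul_eq_mul, map_mul]
    rfl)
  unfold Module.finrank
  rw [h]

end twist

end Pool.Agent.K4H5.BD
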