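import Pool.Agent.K4H5.BD.Forms
import Mathlib.LinearAlgebra.Dimension.Constructions
import Mathlib.LinearAlgebra.Basis.VectorSpace
import Mathlib.LinearAlgebra.FiniteDimensional.Lemmas
import Mathlib.LinearAlgebra.Matrix.Rank

/-!
The image of the matrix of a digit.
-/

set_option autoImplicit false
set_option linter.unusedSectionVars false

open Polynomial

namespace Pool.Agent.K4H5.BD

open Pool.Agent.K4H5.BC Pool.Agent.Y709

section theta

variable {K : Type} [Field K] {p : ℕ} [hp : Fact p.Prime] [CharP K p]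

theorem ivf_spec (i : ℕ) (hi : i < p) : ivf K i * ((i.factorial : ℕ) : K) = 1 := by
  unfold ivf
  rw [inv_mul_cancel₀]
  intro h
  rw [CharP.cast_eq_zero_iff K p, hp.out.dvd_factorial] at h
  omega

theorem ivf_spec' (i : ℕ) (hi : i < p) :
    (C (ivf K i) : K[X]) * ((i.factorial : ℕ) : K[X]) = 1 := by
  rw [← map_natCast (C : K →+* K[X]), ← C_mul, ivf_spec i hi, C_1]

theorem as_sum {a : ℕ} {g : K[X][X]} (hg : g.natDegree ≤ a) :
    ∑ b : Fin (a + 1), C (g.coeff b) * X ^ (b : ℕ) = g := by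
  conv_rhs => rw [as_sum_range' g (a + 1) (by omega)]
  rw [Finset.sum_range]
  refine Finset.sum_congr rfl fun b _ => ?_
  rw [C_mul_X_pow_eq_monomial]

/-- the quotient `(G ^ p - φ(G)) / p` -/
noncomputable def theta (p : ℕ) (g : K[X][X]) : K[X][X] :=
  -Ep p p (fun i => C (ivf K i)) (fun b : Fin (g.natDegree + 1) => g.coeff b)

theorem isTh_theta (g : K[X][X]) : IsTh p g (theta p g) := by
  unfold theta
  rw [Ep_eq]
  have hinv' : ∀ i < p, (C (C (ivf K i)) : K[X][X]) * ((i.factorial : ℕ) : K[X][X]) = 1 := by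
    intro i hi
    rw [← map_natCast (C : K[X] →+* K[X][X]), ← C_mul, ivf_spec' i hi, C_1]
  have h := tP_th (M := K[X]) (p := p) (m := fun b : Fin (g.natDegree + 1) =>
    C (g.coeff b) * X ^ (b : ℕ)) (inv := fun i => C (C (ivf K i))) hinv'
    (fun b => IsTh.mono _ _) Finset.univ
  rwa [as_sum le_rfl] at h

theorem Wle.neg {w : ℤ × ℤ} {D : ℤ} {f : K[X][X]} (h : Wle w D f) : Wle w D (-f) := by
  intro e j hne
  refine h e j fun h2 => hne ?_
  rw [coeff_neg, coeff_neg, h2, neg_zero]

theorem Wle_theta {w : ℤ × ℤ} {D : ℤ} {g : K[X][X]} (h : Wle w D g) : Wle w (p * D) (theta p g) := by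
  unfold theta
  exact (Wle_Ep p (ivf K) _ fun b j hb => h b j hb).neg

end theta

section img

variable {K : Type} [Field K] {p : ℕ} [hp : Fact p.Prime] [CharP K p] [PerfectRing K p]

/-- the forms obtained from a component -/
theorem mem_img (𝒟 : ℤ → Prop) {F G H : K[X][X]} {s : ℕ} (hH : H.natDegree + 1 < p)
    (hW : ∀ (w : ℤ × ℤ) (D : ℤ), 𝒟 D → Wle w D F → Wle w (s * D - w.1 - w.2) H)
    (hD : ∀ D, 𝒟 D → s * D < p) (h10 : 𝒟 (degT F)) (h01 : 𝒟 F.natDegree) :
    (Dx K p).c (H * theta p G) ∈ Adj 𝒟 (tw2 (frobenius K p) F) (tw2 (frobenius K p) G) := by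
  have hp0 : (0 : ℤ) < p := by exact_mod_cast hp.out.pos
  have key : ∀ (w : ℤ × ℤ) (D D' : ℤ), 𝒟 D → Wle w D F → Wle w D' G → ∀ e j : ℕ,
      (((Dx K p).c (H * theta p G)).coeff e).coeff j ≠ 0 → w.1 * (j + 1) + w.2 * (e + 1) ≤ D' := by
    intro w D D' h1 h2 h3 e j hne
    have h4 := Wle_Dx ((hW w D h1 h2).mul (Wle_theta (p := p) h3)) e j hne
    have h5 := hD D h1
    by_contra h6
    rw [not_le] at h6
    have h7 : (p : ℤ) * (D' + 1) ≤ p * (w.1 * (j + 1) + w.2 * (e + 1)) :=
      mul_le_mul_of_nonneg_left h6 hp0.le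
    have e1 : (p : ℤ) * (D' + 1) = p * D' + p := by ring
    omega
  rw [mem_Adj, natDegree_tw2, degT_tw2]
  refine ⟨?_, ?_⟩
  · intro e j hne
    have h1 := key (1, 0) _ _ h10 (Wle_degT F) (Wle_degT G) e j hne
    have h2 := key (0, 1) _ _ h01 (Wle_natDegree F) (Wle_natDegree G) e j hne
    simp only [one_mul, zero_mul, add_zero, zero_add] at h1 h2
    constructor
    · exact_mod_cast h2
    · exact_mod_cast h1
  · intro T Y h0
    have hsf : ∀ x : LaurentSeries K, ∃ y, sf K p y = x := by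
      intro x
      obtain ⟨y, hy⟩ := sg_surj (frobeniusEquiv K p) x
      refine ⟨y, ?_⟩
      rw [← hy]
      rfl
    obtain ⟨T, rfl⟩ := hsf T
    obtain ⟨Y, rfl⟩ := hsf Y
    have hinj : Function.Injective (sf K p) := by
      intro x y hxy
      ext n
      have := congrArg (fun z => HahnSeries.coeff z n) hxy
      exact (frobenius K p).injective this
    have h0' : val T Y G = 0 := by
      apply hinj
      rw [map_zero, ← val_tw2]
      exact h0
    have h1 := local_formula (isTh_theta G) hH h0'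
    have h2 : val (sf K p T) (sf K p Y) (derivative (tw2 (frobenius K p) G)) =
        sf K p (val T Y (derivative G)) := by
      rw [derivative_tw2, val_tw2]
    have h3 : ∀ N : ℤ, lo N (cL p hp.out.pos (Wl p H T Y)) →
        lo N (form (tw2 (frobenius K p) G) ((Dx K p).c (H * theta p G)) (sf K p T) (sf K p Y)) := by
      intro N hN
      unfold form
      rw [h2, h1]
      by_cases h4 : sf K p (val T Y (derivative G)) = 0
      · rw [h4, div_zero]
        exact lo_zero N
      · rw [mul_div_cancel_left₀ _ h4]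
        exact hN
    refine ⟨?_, ?_⟩
    · intro hT hY
      rw [lo_sg_iff] at hT hY
      apply h3
      refine lo_cL hp.out.pos (N' := 1) (lo_Wl hT (lo_th_one hT) hY ?_) ?_
      · intro e j _
        simp
      · intro n hn
        have : (p : ℤ) * n ≤ p * 0 := mul_le_mul_of_nonneg_left (by omega) hp0.le
        omega
    · intro α β D hDD hT hY hF
      rw [lo_sg_iff] at hT hY
      rw [Wle_tw2] at hF
      apply h3
      refine lo_cL hp.out.pos (N' := -(s * D)) (lo_Wl hT (lo_th hT) hY ?_) ?_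
      · intro e j hne
        have h5 := hW (α, β) D hDD hF e j hne
        simp only at h5
        linarith
      · intro n hn
        have h6 := hD D hDD
        have : (p : ℤ) * n ≤ p * (-1) := mul_le_mul_of_nonneg_left (by omega) hp0.le
        omega

variable {κ : Type} [Fintype κ] [DecidableEq κ]

/-- the decomposition of the value of the operator -/
theorem decomp (𝒟 : ℤ → Prop) {a r : ℕ} (G : κ → K[X][X]) (E : κ → ℕ) {F g : K[X][X]}
    (hFG : F = ∏ l, G l ^ E l) (hF : F.natDegree ≤ a) (hr : a * (r + 1) < p)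
    (hg : g.natDegree + 1 ≤ a)
    (hgW : ∀ (w : ℤ × ℤ) (D : ℤ), 𝒟 D → Wle w D F → Wle w (D - w.1 - w.2) g)
    (hD : ∀ D, 𝒟 D → ((r + 1 : ℕ) : ℤ) * D < p) (h10 : 𝒟 (degT F)) (h01 : 𝒟 F.natDegree) :
    ∃ u : ∀ l, Adj 𝒟 (tw2 (frobenius K p) F) (tw2 (frobenius K p) (G l)),
      (Dx K p).c (g * gA p (r + 1) (fun i => C (ivf K i)) (fun b : Fin (a + 1) => F.coeff b)) =
        ∑ l, tw2 (frobenius K p) ((∏ l' ∈ Finset.univ.erase l, G l' ^ E l') * G l ^ (E l - 1)) *
          (u l : K[X][X]) := by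
  have ha : 0 < a := by omega
  have hrp : r < p := by
    have : 1 * (r + 1) ≤ a * (r + 1) := Nat.mul_le_mul_right _ ha
    omega
  obtain ⟨Θ, hΘ, hJ⟩ := gA_eq (M := K[X]) (p := p) (inv := fun i => C (ivf K i)) ivf_spec'
    (fun b : Fin (a + 1) => F.coeff b) hrp
  rw [as_sum hF] at hΘ hJ
  have hprod := IsTh.prod (p := p) Finset.univ (fun l => G l ^ E l)
    (fun l => (E l : K[X][X]) * (G l ^ (E l - 1)) ^ p * theta p (G l))
    (fun l _ => (isTh_theta (G l)).pow' (E l))
  rw [← hFG] at hprod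
  obtain ⟨v, hv⟩ := hΘ.unique hprod
  have hHd : (g * F ^ r).natDegree + 1 < p := by
    have h1 : (g * F ^ r).natDegree ≤ g.natDegree + r * a :=
      natDegree_mul_le.trans (Nat.add_le_add_left (natDegree_pow_le.trans
        (Nat.mul_le_mul_left _ hF)) _)
    have h2 : a * (r + 1) = r * a + a := by ring
    omega
  have hHW : ∀ (w : ℤ × ℤ) (D : ℤ), 𝒟 D → Wle w D F →
      Wle w (((r + 1 : ℕ) : ℤ) * D - w.1 - w.2) (g * F ^ r) := by
    intro w D h1 h2
    have h3 := (hgW w D h1 h2).mul (h2.pow r)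
    refine h3.mono ?_
    push_cast
    linarith
  have hmem := fun l => mem_img 𝒟 (G := G l) hHd hHW hD h10 h01
  have e0 : (Dx K p).c (g * gA p (r + 1) (fun i => C (ivf K i)) (fun b : Fin (a + 1) => F.coeff b)) =
      (Dx K p).c (((r + 1 : ℕ) : K[X][X]) * (g * F ^ r * Θ)) := by
    have h1 := Jk_mul hJ (g := g) le_rfl
    have h2 := Jk_c (Dt K p) h1 (by
      have h2 : a * (r + 1) = a * r + a := by ring
      omega)
    have h3 : (Dx K p).c (g * (gA p (r + 1) (fun i => C (ivf K i)) (fun b => F.coeff b) -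
        ((r + 1 : ℕ) : K[X][X]) * (F ^ r * Θ))) = 0 := h2
    have h4 : g * gA p (r + 1) (fun i => C (ivf K i)) (fun b : Fin (a + 1) => F.coeff b) =
        g * (gA p (r + 1) (fun i => C (ivf K i)) (fun b : Fin (a + 1) => F.coeff b) -
        ((r + 1 : ℕ) : K[X][X]) * (F ^ r * Θ)) + ((r + 1 : ℕ) : K[X][X]) * (g * F ^ r * Θ) := by
      ring
    rw [h4, map_add, h3, zero_add]
  have e1 : (Dx K p).c (g * F ^ r * expand K[X] p v) = 0 := by
    rw [mul_comm]
    exact (Dt K p).c_expand v _ hHd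
  have e2 : (Dx K p).c (g * F ^ r * Θ) = ∑ l, tw2 (frobenius K p)
      ((∏ l' ∈ Finset.univ.erase l, G l' ^ E l') * G l ^ (E l - 1)) *
        ((E l : K[X][X]) * (Dx K p).c (g * F ^ r * theta p (G l))) := by
    rw [hv, mul_add, map_add, e1, add_zero, Finset.mul_sum, map_sum]
    refine Finset.sum_congr rfl fun l _ => ?_
    have h1 : g * F ^ r * ((∏ j ∈ Finset.univ.erase l, G j ^ E j) ^ p *
        ((E l : K[X][X]) * (G l ^ (E l - 1)) ^ p * theta p (G l))) =
        ((∏ j ∈ Finset.univ.erase l, G j ^ E j) * G l ^ (E l - 1)) ^ p *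
          ((E l) • (g * F ^ r * theta p (G l))) := by
      rw [nsmul_eq_mul]
      ring
    have h2 : (Dx K p).tw = tw2 (frobenius K p) := rfl
    rw [h1, Car.c_pow, map_nsmul, nsmul_eq_mul, h2]
  have e3 : ∀ l, (((r + 1) * E l : ℕ)) • (Dx K p).c (g * F ^ r * theta p (G l)) ∈
      Adj 𝒟 (tw2 (frobenius K p) F) (tw2 (frobenius K p) (G l)) :=
    fun l => nsmul_mem (hmem l) _
  refine ⟨fun l => ⟨_, e3 l⟩, ?_⟩
  rw [e0, ← nsmul_eq_mul, map_nsmul, e2, Finset.smul_sum]
  refine Finset.sum_congr rfl fun l _ => ?_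
  dsimp only
  rw [nsmul_eq_mul, nsmul_eq_mul]
  push_cast
  ring

end img

section rank

variable {K : Type} [Field K] {p : ℕ} [hp : Fact p.Prime] [CharP K p] [PerfectRing K p]
  {κ : Type} [Fintype κ] [DecidableEq κ]

/-- the rank of the matrix of a digit -/
theorem rank_le (𝒟 : ℤ → Prop) {a r m' : ℕ} (G : κ → K[X][X]) (E : κ → ℕ) {F : K[X][X]}
    (hFG : F = ∏ l, G l ^ E l) (hF : F.natDegree ≤ a) (hr : a * (r + 1) < p)
    (good : Fin m' × (Fin (a + 1) × Unit) → Prop) [DecidablePred good]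
    (hga : ∀ x, good x → (x.2.1 : ℕ) + 1 ≤ a)
    (hgW : ∀ (w : ℤ × ℤ) (D : ℤ), 𝒟 D → Wle w D F → ∀ x, good x →
      w.1 * ((x.1 : ℕ) + 1) + w.2 * ((x.2.1 : ℕ) + 1) ≤ D)
    (hD : ∀ D, 𝒟 D → ((r + 1 : ℕ) : ℤ) * D < p) (h10 : 𝒟 (degT F)) (h01 : 𝒟 F.natDegree) :
    ((kmat p m' (kA p (r + 1) (fun i => C (ivf K i)) (fun b : Fin (a + 1) => F.coeff b))).submatrix
      (Subtype.val : {x // good x} → _) (Subtype.val : {x // good x} → _)).rank ≤
      ∑ l, Module.finrank K (Adj 𝒟 (tw2 (frobenius K p) F) (tw2 (frobenius K p) (G l))) := by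
  classical
  set gg := gA p (r + 1) (fun i => C (ivf K i)) (fun b : Fin (a + 1) => F.coeff b) with hgg
  let Λ : (∀ l, Adj 𝒟 (tw2 (frobenius K p) F) (tw2 (frobenius K p) (G l))) →ₗ[K]
      ({x // good x} → K) :=
    { toFun := fun u x => ((∑ l, tw2 (frobenius K p)
        ((∏ l' ∈ Finset.univ.erase l, G l' ^ E l') * G l ^ (E l - 1)) *
          (u l : K[X][X])).coeff x.1.2.1).coeff x.1.1
      map_add' := by
        intro u u'
        funext x
        rw [Pi.add_apply, ← coeff_add, ← coeff_add, ← Finset.sum_add_distrib]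
        congr 2
        refine Finset.sum_congr rfl fun l _ => ?_
        rw [← mul_add]
        rfl
      map_smul' := by
        intro c u
        funext x
        rw [Pi.smul_apply, RingHom.id_apply, ← coeff_smul, ← coeff_smul, Finset.smul_sum]
        congr 2
        refine Finset.sum_congr rfl fun l _ => ?_
        rw [← mul_smul_comm]
        rfl }
  have h1 : LinearMap.range (Matrix.mulVecLin ((kmat p m' (kA p (r + 1) (fun i => C (ivf K i))
      (fun b : Fin (a + 1) => F.coeff b))).submatrix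
      (Subtype.val : {x // good x} → _) (Subtype.val : {x // good x} → _))) ≤ LinearMap.range Λ := by
    rintro _ ⟨v, rfl⟩
    set g : K[X][X] := ∑ x : {x // good x}, C (C (v x)) * mon K x.1 with hg
    have hcoef : ∀ e j : ℕ, (g.coeff e).coeff j ≠ 0 → ∃ x : {x // good x},
        (x.1.1 : ℕ) = j ∧ (x.1.2.1 : ℕ) = e := by
      intro e j h
      rw [hg, finsetSum_coeff, finsetSum_coeff] at h
      obtain ⟨x, -, hx⟩ := Finset.exists_ne_zero_of_sum_ne_zero h
      unfold mon at hx
      rw [coeff_C_mul, coeff_C_mul, coeff_C_mul_X_pow] at hx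
      refine ⟨x, ?_⟩
      split_ifs at hx with h2
      · rw [coeff_X_pow] at hx
        split_ifs at hx with h3
        · exact ⟨h3.symm, h2.symm⟩
        · exact absurd (mul_zero _) hx
      · rw [coeff_zero] at hx
        exact absurd (mul_zero _) hx
    by_cases ha0 : ∃ x, good x
    · obtain ⟨x0, hx0⟩ := ha0
      have ha := hga x0 hx0
      obtain ⟨u, hu⟩ := decomp 𝒟 (a := a) (r := r) G E (g := g) hFG hF hr (by
          have : g.natDegree ≤ a - 1 := by
            rw [natDegree_le_iff_coeff_eq_zero]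
            intro e he
            ext j
            rw [coeff_zero]
            by_contra h
            obtain ⟨x, _, h3⟩ := hcoef e j h
            have := hga x.1 x.2
            omega
          omega) (by
          intro w D h2 h3 e j h
          obtain ⟨x, h4, h5⟩ := hcoef e j h
          have := hgW w D h2 h3 x.1 x.2
          rw [h4, h5] at this
          linarith) hD h10 h01
      refine ⟨u, ?_⟩
      funext x'
      show ((∑ l, tw2 (frobenius K p)
        ((∏ l' ∈ Finset.univ.erase l, G l' ^ E l') * G l ^ (E l - 1)) *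
          (u l : K[X][X])).coeff x'.1.2.1).coeff x'.1.1 = _
      rw [← hu, Matrix.mulVecLin_apply, Matrix.mulVec, dotProduct, ← hgg, coeff_Dx, hg,
        Finset.sum_mul, finsetSum_coeff, finsetSum_coeff]
      refine Finset.sum_congr rfl fun x _ => ?_
      rw [Matrix.submatrix_apply, entry_eq, coeff_Dx, mul_assoc, coeff_C_mul, coeff_C_mul, mul_comm]
    · refine ⟨0, ?_⟩
      funext x'
      exact absurd ⟨x'.1, x'.2⟩ ha0
  have h2 : Module.finrank K (∀ l, Adj 𝒟 (tw2 (frobenius K p) F) (tw2 (frobenius K p) (G l))) =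
      ∑ l, Module.finrank K (Adj 𝒟 (tw2 (frobenius K p) F) (tw2 (frobenius K p) (G l))) :=
    Module.finrank_pi_fintype K
  rw [← h2, Matrix.rank]
  exact (Submodule.finrank_mono h1).trans (LinearMap.finrank_range_le Λ)

end rank

end Pool.Agent.K4H5.BD
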