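import Mathlib.Algebra.Polynomial.Expand
import Mathlib.Algebra.MvPolynomial.Expand
import Mathlib.Algebra.MvPolynomial.Rename
import Mathlib.Algebra.CharP.Lemmas
import Mathlib.Algebra.CharP.Algebra
import Mathlib.RingTheory.MvPolynomial.Basic
import Mathlib.FieldTheory.Finite.Basic

/-!
The quotients `(F ^ p - φ(F)) / p` modulo `p`.
-/

set_option autoImplicit false
set_option linter.unusedSectionVars false

open Polynomial

namespace Pool.Agent.K4H5.BD

/-- the cross term -/
def cr {A : Type} [CommRing A] (p : ℕ) (x y : A) : A :=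
  ∑ k ∈ Finset.Ioo 0 p, x ^ k * y ^ (p - k) * ((p.choose k / p : ℕ) : A)

theorem map_cr {A B : Type} [CommRing A] [CommRing B] (φ : A →+* B) (p : ℕ) (x y : A) :
    φ (cr p x y) = cr p (φ x) (φ y) := by
  unfold cr
  rw [map_sum]
  refine Finset.sum_congr rfl fun k _ => ?_
  rw [map_mul, map_mul, map_pow, map_pow, map_natCast]

theorem cr_zero_right {A : Type} [CommRing A] (p : ℕ) (x : A) : cr p x 0 = 0 := by
  unfold cr
  refine Finset.sum_eq_zero fun k hk => ?_
  rw [Finset.mem_Ioo] at hk
  rw [zero_pow (by omega), mul_zero, zero_mul]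

section lift

variable (M : Type) [CommRing M]

/-- the ring of the lifts -/
abbrev LA : Type := Polynomial (MvPolynomial M ℤ)

/-- the value of a lift of a coefficient -/
noncomputable def ev : MvPolynomial M ℤ →+* M :=
  MvPolynomial.eval₂Hom (Int.castRingHom M) id

/-- the reduction -/
noncomputable def rd : LA M →+* M[X] := mapRingHom (ev M)

/-- the lift of the map of Frobenius -/
noncomputable def fr0 (p : ℕ) : MvPolynomial M ℤ →+* MvPolynomial M ℤ :=
  ((MvPolynomial.expand p : MvPolynomial M ℤ →ₐ[ℤ] MvPolynomial M ℤ) :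
    MvPolynomial M ℤ →+* MvPolynomial M ℤ)

/-- the lift of the map of Frobenius -/
noncomputable def fr (p : ℕ) : LA M →+* LA M :=
  ((expand (MvPolynomial M ℤ) p : LA M →ₐ[MvPolynomial M ℤ] LA M) : LA M →+* LA M).comp
    (mapRingHom (fr0 M p))

variable {M} {p : ℕ} [hp : Fact p.Prime] [CharP M p]

theorem fr0_lift (a : MvPolynomial M ℤ) : ∃ h, a ^ p = fr0 M p a + p * h := by
  induction a using MvPolynomial.induction_on with
  | C z =>
    obtain ⟨w, hw⟩ : (p : ℤ) ∣ z ^ p - z := by
      have h1 : ((z ^ p - z : ℤ) : ZMod p) = 0 := by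
        push_cast
        rw [ZMod.pow_card, sub_self]
      exact (ZMod.intCast_zmod_eq_zero_iff_dvd _ _).1 h1
    refine ⟨MvPolynomial.C w, ?_⟩
    unfold fr0
    rw [RingHom.coe_coe, MvPolynomial.expand_C, ← map_pow, ← map_natCast (MvPolynomial.C), ← map_mul,
      ← map_add]
    congr 1
    have : ((p : ℕ) : ℤ) * w = z ^ p - z := hw.symm
    rw [this]
    ring
  | add a b ha hb =>
    obtain ⟨h, hh⟩ := ha
    obtain ⟨g, hg⟩ := hb
    refine ⟨h + g + cr p a b, ?_⟩
    rw [add_pow_prime_eq' hp.out, hh, hg, map_add]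
    unfold cr
    ring
  | mul_X a n ha =>
    obtain ⟨h, hh⟩ := ha
    refine ⟨h * MvPolynomial.X n ^ p, ?_⟩
    have h1 : fr0 M p (MvPolynomial.X n) = MvPolynomial.X n ^ p := by
      unfold fr0
      rw [RingHom.coe_coe, MvPolynomial.expand_X]
    rw [mul_pow, map_mul, hh, h1]
    ring

theorem fr_C (c : MvPolynomial M ℤ) : fr M p (C c) = C (fr0 M p c) := by
  unfold fr
  rw [RingHom.comp_apply, coe_mapRingHom, map_C, RingHom.coe_coe, expand_C]

theorem fr_X : fr M p X = X ^ p := by
  unfold fr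
  rw [RingHom.comp_apply, coe_mapRingHom, map_X, RingHom.coe_coe, expand_X]

theorem fr_lift (a : LA M) : ∃ h, a ^ p = fr M p a + p * h := by
  induction a using Polynomial.induction_on' with
  | add a b ha hb =>
    obtain ⟨h, hh⟩ := ha
    obtain ⟨g, hg⟩ := hb
    refine ⟨h + g + cr p a b, ?_⟩
    rw [add_pow_prime_eq' hp.out, hh, hg, map_add]
    unfold cr
    ring
  | monomial n c =>
    obtain ⟨h, hh⟩ := fr0_lift (p := p) c
    refine ⟨C h * (X ^ n) ^ p, ?_⟩
    rw [← C_mul_X_pow_eq_monomial, map_mul, map_pow, fr_C, fr_X, mul_pow, ← C_pow, hh, C_add, C_mul,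
      ← map_natCast (C : MvPolynomial M ℤ →+* LA M)]
    ring

/-- the relation between a polynomial and the quotient -/
def IsTh (p : ℕ) (b θ : M[X]) : Prop :=
  ∃ a h : LA M, rd M a = b ∧ rd M h = θ ∧ a ^ p = fr M p a + p * h

theorem ev_X (m : M) : ev M (MvPolynomial.X m) = m := by
  unfold ev
  rw [MvPolynomial.coe_eval₂Hom, MvPolynomial.eval₂_X]
  rfl

theorem rd_surj (b : M[X]) : ∃ a, rd M a = b := by
  have h1 : Function.Surjective (ev M) := fun m => ⟨MvPolynomial.X m, ev_X m⟩
  exact Polynomial.map_surjective _ h1 b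

theorem exists_th (p : ℕ) [hp : Fact p.Prime] [CharP M p] (b : M[X]) : ∃ θ, IsTh p b θ := by
  obtain ⟨a, ha⟩ := rd_surj b
  obtain ⟨h, hh⟩ := fr_lift (p := p) a
  exact ⟨rd M h, a, h, ha, rfl, hh⟩

theorem IsTh.mono (c : M) (n : ℕ) : IsTh p (C c * X ^ n) 0 := by
  refine ⟨C (MvPolynomial.X c) * X ^ n, 0, ?_, map_zero _, ?_⟩
  · unfold rd
    rw [coe_mapRingHom, Polynomial.map_mul, map_C, ev_X, Polynomial.map_pow, map_X]
  · have h1 : fr0 M p (MvPolynomial.X c) = MvPolynomial.X c ^ p := by
      unfold fr0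
      rw [RingHom.coe_coe, MvPolynomial.expand_X]
    rw [map_mul, map_pow, fr_C, fr_X, h1, mul_pow, mul_zero, add_zero, C_pow]
    ring

theorem IsTh.add {b b' θ θ' : M[X]} (h : IsTh p b θ) (h' : IsTh p b' θ') :
    IsTh p (b + b') (θ + θ' + cr p b b') := by
  obtain ⟨a, g, ha, hg, e⟩ := h
  obtain ⟨a', g', ha', hg', e'⟩ := h'
  refine ⟨a + a', g + g' + cr p a a', by rw [map_add, ha, ha'], ?_, ?_⟩
  · rw [map_add, map_add, map_cr, ha, ha', hg, hg']
  · rw [add_pow_prime_eq' hp.out, e, e', map_add]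
    unfold cr
    ring

theorem natCast_zero_pol : ((p : ℕ) : M[X]) = 0 := by
  rw [← map_natCast (C : M →+* M[X]), CharP.cast_eq_zero, C_0]

theorem IsTh.mul {b b' θ θ' : M[X]} (h : IsTh p b θ) (h' : IsTh p b' θ') :
    IsTh p (b * b') (b ^ p * θ' + b' ^ p * θ) := by
  obtain ⟨a, g, ha, hg, e⟩ := h
  obtain ⟨a', g', ha', hg', e'⟩ := h'
  refine ⟨a * a', g * fr M p a' + fr M p a * g' + p * g * g', by rw [map_mul, ha, ha'], ?_, ?_⟩
  · have h1 : rd M (fr M p a) = b ^ p := by
      have := congrArg (rd M) e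
      rw [map_pow, map_add, map_mul, map_natCast, natCast_zero_pol, zero_mul, add_zero, ha] at this
      exact this.symm
    have h2 : rd M (fr M p a') = b' ^ p := by
      have := congrArg (rd M) e'
      rw [map_pow, map_add, map_mul, map_natCast, natCast_zero_pol, zero_mul, add_zero, ha'] at this
      exact this.symm
    rw [map_add, map_add, map_mul, map_mul, map_mul, map_mul, map_natCast, natCast_zero_pol, h1, h2,
      hg, hg']
    ring
  · rw [mul_pow, e, e', map_mul]
    ring

theorem IsTh.one : IsTh p (1 : M[X]) 0 := by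
  have h := IsTh.mono (p := p) (1 : M) 0
  rwa [C_1, pow_zero, mul_one] at h

theorem IsTh.pow' {b θ : M[X]} (h : IsTh p b θ) (n : ℕ) :
    IsTh p (b ^ n) (n * (b ^ (n - 1)) ^ p * θ) := by
  induction n with
  | zero =>
    rw [pow_zero, Nat.cast_zero, zero_mul, zero_mul]
    exact IsTh.one
  | succ n ih =>
    have h1 := ih.mul h
    rw [← pow_succ] at h1
    have e : (b ^ n) ^ p * θ + b ^ p * (n * (b ^ (n - 1)) ^ p * θ) =
        ((n + 1 : ℕ) : M[X]) * (b ^ (n + 1 - 1)) ^ p * θ := by
      rw [Nat.add_sub_cancel]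
      rcases n with _ | n
      · simp
      · rw [Nat.add_sub_cancel, pow_succ b n]
        push_cast
        ring
    rw [← e]
    exact h1

theorem IsTh.prod {ι : Type} [DecidableEq ι] (s : Finset ι) (b θ : ι → M[X]) (h : ∀ i ∈ s, IsTh p (b i) (θ i)) :
    IsTh p (∏ i ∈ s, b i) (∑ i ∈ s, (∏ j ∈ s.erase i, b j) ^ p * θ i) := by
  induction s using Finset.induction_on with
  | empty =>
    rw [Finset.prod_empty, Finset.sum_empty]
    exact IsTh.one
  | insert a s ha ih =>
    have h1 := (h a (Finset.mem_insert_self a s)).mul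
      (ih fun i hi => h i (Finset.mem_insert_of_mem hi))
    rw [Finset.prod_insert ha, Finset.sum_insert ha, Finset.erase_insert ha]
    have e : ∑ i ∈ s, (∏ j ∈ (insert a s).erase i, b j) ^ p * θ i =
        b a ^ p * ∑ i ∈ s, (∏ j ∈ s.erase i, b j) ^ p * θ i := by
      rw [Finset.mul_sum]
      refine Finset.sum_congr rfl fun i hi => ?_
      have hne : a ≠ i := fun h => ha (h ▸ hi)
      rw [Finset.erase_insert_of_ne hne, Finset.prod_insert (fun h => ha (Finset.mem_of_mem_erase h)),
        mul_pow, mul_assoc]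
    rw [e, add_comm]
    exact h1

/-- the polynomials in the kernel of the reduction -/
theorem th_ker (a : LA M) (ha : rd M a = 0) :
    ∃ h v, a ^ p = fr M p a + p * h ∧ rd M h = expand M p v := by
  have key : ∀ s : Finset ℕ, ∃ h v, (∑ n ∈ s, C (a.coeff n) * X ^ n) ^ p =
      fr M p (∑ n ∈ s, C (a.coeff n) * X ^ n) + p * h ∧ rd M h = expand M p v := by
    classical
    intro s
    induction s using Finset.induction_on with
    | empty =>
      refine ⟨0, 0, ?_, by rw [map_zero, map_zero]⟩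
      rw [Finset.sum_empty, map_zero, zero_pow hp.out.ne_zero]
      ring
    | insert n s hn ih =>
      obtain ⟨h, v, e1, e2⟩ := ih
      obtain ⟨c, hc⟩ := fr0_lift (p := p) (a.coeff n)
      have hcoef : ev M (a.coeff n) = 0 := by
        have h3 := congrArg (fun q => coeff q n) ha
        have h4 : coeff (rd M a) n = ev M (a.coeff n) := by
          unfold rd
          rw [coe_mapRingHom, coeff_map]
        rw [← h4, ha, coeff_zero]
      have hr : rd M (C (a.coeff n) * X ^ n) = 0 := by
        unfold rd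
        rw [coe_mapRingHom, Polynomial.map_mul, map_C, hcoef, C_0, zero_mul]
      refine ⟨C c * (X ^ n) ^ p + h + cr p (C (a.coeff n) * X ^ n)
        (∑ n ∈ s, C (a.coeff n) * X ^ n), C (ev M c) * X ^ n + v, ?_, ?_⟩
      · have hfr : fr M p (C (a.coeff n) * X ^ n) = C (fr0 M p (a.coeff n)) * (X ^ n) ^ p := by
          rw [map_mul, map_pow, fr_C, fr_X]
          ring
        rw [Finset.sum_insert hn, add_pow_prime_eq' hp.out, e1, mul_pow, ← C_pow, hc, map_add (fr M p),
          hfr, C_add, C_mul, ← map_natCast (C : MvPolynomial M ℤ →+* LA M)]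
        unfold cr
        ring
      · rw [map_add, map_add, map_cr, hr, e2, map_add]
        have h5 : ∀ y : M[X], cr p 0 y = 0 := by
          intro y
          unfold cr
          refine Finset.sum_eq_zero fun k hk => ?_
          rw [Finset.mem_Ioo] at hk
          rw [zero_pow (by omega), zero_mul, zero_mul]
        have h6 : rd M (C c * (X ^ n) ^ p) = expand M p (C (ev M c) * X ^ n) := by
          rw [map_mul (expand M p), expand_C, map_pow (expand M p), expand_X]
          unfold rd
          rw [coe_mapRingHom, Polynomial.map_mul, map_C, Polynomial.map_pow, Polynomial.map_pow, map_X]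
          ring
        rw [h5, add_zero, h6]
  have h1 : ∑ n ∈ Finset.range (a.natDegree + 1), C (a.coeff n) * X ^ n = a := by
    conv_rhs => rw [as_sum_range_C_mul_X_pow a]
  obtain ⟨h, v, e1, e2⟩ := key (Finset.range (a.natDegree + 1))
  rw [h1] at e1
  exact ⟨h, v, e1, e2⟩

theorem LA_cancel {x y : LA M} (h : (p : LA M) * x = p * y) : x = y := by
  have h1 : (p : LA M) ≠ 0 := Nat.cast_ne_zero.2 hp.out.ne_zero
  exact mul_left_cancel₀ h1 h

/-- the quotient is unique up to the polynomials in `x ^ p` -/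
theorem IsTh.unique {b θ θ' : M[X]} (h : IsTh p b θ) (h' : IsTh p b θ') :
    ∃ v, θ = θ' + expand M p v := by
  obtain ⟨a, g, ha, hg, e⟩ := h
  obtain ⟨a', g', ha', hg', e'⟩ := h'
  obtain ⟨k, v, e1, e2⟩ := th_ker (p := p) (a - a') (by rw [map_sub, ha, ha', sub_self])
  refine ⟨v, ?_⟩
  have h1 : (a' + (a - a')) ^ p = a' ^ p + (a - a') ^ p + p * cr p a' (a - a') := by
    rw [add_pow_prime_eq' hp.out]
    rfl
  rw [add_sub_cancel, e, e', e1, map_sub] at h1
  have h2 : (p : LA M) * g = p * (g' + k + cr p a' (a - a')) := by linear_combination h1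
  have h3 := LA_cancel h2
  rw [← hg, h3, map_add, map_add, hg', e2, map_cr, map_sub, ha, ha', sub_self, cr_zero_right,
    add_zero]

variable {M' : Type} [CommRing M'] [CharP M' p] (ψ : M →+* M')

/-- change of the ring of coefficients -/
theorem IsTh.map {b θ : M[X]} (h : IsTh p b θ) : IsTh p (b.map ψ) (θ.map ψ) := by
  obtain ⟨a, g, ha, hg, e⟩ := h
  set Ψ : LA M →+* LA M' := mapRingHom ((MvPolynomial.rename ψ : MvPolynomial M ℤ →ₐ[ℤ]
    MvPolynomial M' ℤ) : MvPolynomial M ℤ →+* MvPolynomial M' ℤ) with hΨ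
  have h1 : (rd M').comp Ψ = (mapRingHom ψ).comp (rd M) := by
    unfold rd
    rw [hΨ, mapRingHom_comp, mapRingHom_comp]
    congr 1
    refine MvPolynomial.ringHom_ext ?_ ?_
    · intro z
      simp [ev]
    · intro m
      rw [RingHom.comp_apply, RingHom.comp_apply, RingHom.coe_coe, MvPolynomial.rename_X, ev_X, ev_X]
  have h2 : (fr M' p).comp Ψ = Ψ.comp (fr M p) := by
    refine Polynomial.ringHom_ext ?_ ?_
    · intro c
      rw [RingHom.comp_apply, RingHom.comp_apply, fr_C, hΨ, coe_mapRingHom, map_C, fr_C, map_C]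
      congr 1
      have h3 : ((fr0 M' p).comp ((MvPolynomial.rename ψ : MvPolynomial M ℤ →ₐ[ℤ]
          MvPolynomial M' ℤ) : MvPolynomial M ℤ →+* MvPolynomial M' ℤ)) =
          (((MvPolynomial.rename ψ : MvPolynomial M ℤ →ₐ[ℤ]
          MvPolynomial M' ℤ) : MvPolynomial M ℤ →+* MvPolynomial M' ℤ)).comp (fr0 M p) := by
        refine MvPolynomial.ringHom_ext ?_ ?_
        · intro z
          simp [fr0]
        · intro m
          simp [fr0]
      exact RingHom.congr_fun h3 c
    · rw [RingHom.comp_apply, RingHom.comp_apply, fr_X, hΨ, coe_mapRingHom, map_X, fr_X,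
        Polynomial.map_pow, map_X]
  refine ⟨Ψ a, Ψ g, ?_, ?_, ?_⟩
  · rw [← RingHom.comp_apply, h1, RingHom.comp_apply, ha]
    rfl
  · rw [← RingHom.comp_apply, h1, RingHom.comp_apply, hg]
    rfl
  · rw [← RingHom.comp_apply, h2, RingHom.comp_apply, ← map_pow, e, map_add, map_mul, map_natCast]

end lift

end Pool.Agent.K4H5.BD
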