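import Pool.Agent.K4H5.BD.Car
import Pool.Agent.K4H5.BD.Theta
import Mathlib.RingTheory.LaurentSeries
import Mathlib.Data.Nat.Choose.Dvd

/-!
Laurent series with the operator of Cartier.
-/

set_option autoImplicit false
set_option linter.unusedSectionVars false

open Finset HahnSeries

namespace Pool.Agent.K4H5.BD

section lo

variable {R : Type} [CommRing R]

/-- the coefficients below `N` are zero -/
def lo (N : ℤ) (h : LaurentSeries R) : Prop := ∀ n < N, h.coeff n = 0

theorem lo_mono {N N' : ℤ} {h : LaurentSeries R} (hh : lo N h) (hN : N' ≤ N) : lo N' h :=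
  fun n hn => hh n (lt_of_lt_of_le hn hN)

theorem lo_zero (N : ℤ) : lo N (0 : LaurentSeries R) := fun _ _ => rfl

theorem lo_add {N : ℤ} {h g : LaurentSeries R} (hh : lo N h) (hg : lo N g) : lo N (h + g) := by
  intro n hn
  rw [coeff_add, hh n hn, hg n hn, add_zero]

theorem lo_mul {N N' : ℤ} {h g : LaurentSeries R} (hh : lo N h) (hg : lo N' g) :
    lo (N + N') (h * g) := by
  intro n hn
  rw [coeff_mul]
  refine sum_eq_zero fun ij hij => ?_
  rw [Finset.mem_antidiagonal] at hij
  by_cases h1 : ij.1 < N
  · rw [hh _ h1, zero_mul]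
  · rw [hg _ (by omega), mul_zero]

theorem lo_sum {ι : Type} (s : Finset ι) {N : ℤ} {h : ι → LaurentSeries R}
    (hh : ∀ i ∈ s, lo N (h i)) : lo N (∑ i ∈ s, h i) := by
  classical
  induction s using Finset.induction_on with
  | empty =>
    rw [sum_empty]
    exact lo_zero N
  | insert a s ha ih =>
    rw [sum_insert ha]
    exact lo_add (hh a (mem_insert_self a s)) (ih fun i hi => hh i (mem_insert_of_mem hi))

theorem lo_C (c : R) : lo 0 (HahnSeries.C c : LaurentSeries R) := by
  intro n hn
  rw [C_apply, coeff_single_of_ne hn.ne]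

theorem lo_one : lo 0 (1 : LaurentSeries R) := by
  have := lo_C (1 : R)
  rwa [map_one] at this

theorem lo_pow {N : ℤ} {h : LaurentSeries R} (hh : lo N h) (n : ℕ) : lo (n * N) (h ^ n) := by
  induction n with
  | zero =>
    rw [pow_zero, Nat.cast_zero, zero_mul]
    exact lo_one
  | succ n ih =>
    rw [pow_succ]
    have h1 := lo_mul ih hh
    have e : (n : ℤ) * N + N = ((n + 1 : ℕ) : ℤ) * N := by push_cast; ring
    rwa [e] at h1

theorem lo_order (h : LaurentSeries R) : lo h.order h := fun _ hn => coeff_eq_zero_of_lt_order hn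

theorem exists_lo (h : LaurentSeries R) : ∃ c : ℕ, lo (-(c : ℤ)) h := by
  refine ⟨h.order.natAbs, lo_mono (lo_order h) ?_⟩
  omega

/-- a continuous additive map that is zero on the monomials is zero -/
theorem cont (δ : LaurentSeries R →+ LaurentSeries R) (h1 : ∀ n a, δ (single n a) = 0)
    (h2 : ∀ m : ℤ, ∃ N : ℤ, ∀ x, lo N x → (δ x).coeff m = 0) (x : LaurentSeries R) : δ x = 0 := by
  ext m
  rw [coeff_zero]
  obtain ⟨N, hN⟩ := h2 m
  set S := Finset.Ico x.order N with hS
  set y := ∑ n ∈ S, single n (x.coeff n) with hy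
  have hlo : lo N (x - y) := by
    intro n hn
    rw [coeff_sub, hy, coeff_sum]
    by_cases hn' : x.order ≤ n
    · rw [Finset.sum_eq_single_of_mem n (Finset.mem_Ico.2 ⟨hn', hn⟩), coeff_single_same, sub_self]
      intro b _ hb
      rw [coeff_single_of_ne (Ne.symm hb)]
    · rw [coeff_eq_zero_of_lt_order (not_le.1 hn'), zero_sub, neg_eq_zero]
      refine Finset.sum_eq_zero fun b hb => ?_
      rw [Finset.mem_Ico] at hb
      rw [coeff_single_of_ne (by omega)]
  have e : x = (x - y) + y := by ring
  rw [e, map_add, coeff_add, hN _ hlo, zero_add, hy, map_sum,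
    Finset.sum_eq_zero fun n _ => h1 n _, coeff_zero]

end lo

section ops

variable {R : Type} [CommRing R] {R' : Type} [CommRing R']

/-- the change of the coefficients -/
noncomputable def sg (σ : R →+* R') : LaurentSeries R →+* LaurentSeries R' where
  toFun x := x.map σ
  map_one' := by
    ext n
    show σ ((1 : LaurentSeries R).coeff n) = (1 : LaurentSeries R').coeff n
    rw [coeff_one, coeff_one]
    split_ifs
    · exact map_one σ
    · exact map_zero σ
  map_mul' x y := HahnSeries.map_mul (σ.toNonUnitalRingHom) (x := x) (y := y)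
  map_zero' := by
    ext n
    exact map_zero σ
  map_add' x y := by
    ext n
    exact map_add σ _ _

theorem coeff_sg (σ : R →+* R') (x : LaurentSeries R) (n : ℤ) :
    (sg σ x).coeff n = σ (x.coeff n) := rfl

theorem lo_sg (σ : R →+* R') {N : ℤ} {x : LaurentSeries R} (h : lo N x) : lo N (sg σ x) := by
  intro n hn
  rw [coeff_sg, h n hn, map_zero]

theorem sg_C (σ : R →+* R') (c : R) : sg σ (HahnSeries.C c : LaurentSeries R) = HahnSeries.C (σ c) := by
  ext n
  rw [coeff_sg, C_apply, C_apply, coeff_single, coeff_single]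
  split_ifs
  · rfl
  · exact map_zero σ

variable (R) in
/-- the substitution `z ↦ z ^ p` -/
noncomputable def EL (p : ℕ) (hp : 0 < p) : LaurentSeries R →+* LaurentSeries R :=
  embDomainRingHom
    ({ toFun := fun n => (p : ℤ) * n, map_zero' := mul_zero _, map_add' := mul_add _ } : ℤ →+ ℤ)
    (by
      intro a b h
      have h1 : (p : ℤ) * a = p * b := h
      exact mul_left_cancel₀ (by exact_mod_cast hp.ne') h1)
    (by
      intro a b
      show (p : ℤ) * a ≤ p * b ↔ a ≤ b
      exact mul_le_mul_iff_right₀ (by exact_mod_cast hp))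

theorem coeff_EL {p : ℕ} (hp : 0 < p) (x : LaurentSeries R) (n : ℤ) :
    (EL R p hp x).coeff ((p : ℤ) * n) = x.coeff n := by
  unfold EL
  rw [embDomainRingHom_apply]
  exact embDomain_coeff

theorem coeff_EL' {p : ℕ} (hp : 0 < p) (x : LaurentSeries R) (n : ℤ) (hn : ¬ (p : ℤ) ∣ n) :
    (EL R p hp x).coeff n = 0 := by
  unfold EL
  rw [embDomainRingHom_apply]
  apply embDomain_of_notMem_range
  rintro ⟨m, hm⟩
  exact hn ⟨m, hm.symm⟩

theorem EL_single {p : ℕ} (hp : 0 < p) (n : ℤ) (a : R) :
    EL R p hp (single n a) = single ((p : ℤ) * n) a := by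
  unfold EL
  rw [embDomainRingHom_apply]
  exact embDomain_single

theorem lo_EL {p : ℕ} (hp : 0 < p) {N : ℤ} {x : LaurentSeries R} (h : lo N x) :
    lo (p * N) (EL R p hp x) := by
  intro n hn
  by_cases hd : (p : ℤ) ∣ n
  · obtain ⟨m, rfl⟩ := hd
    rw [coeff_EL]
    exact h m (lt_of_mul_lt_mul_left hn (by positivity))
  · exact coeff_EL' hp x n hd

/-- the operator `∑ a_n z ^ n ↦ ∑ a_(p n) z ^ n` -/
noncomputable def cL (p : ℕ) (hp : 0 < p) : LaurentSeries R →+ LaurentSeries R where
  toFun x := ofSuppBddBelow (fun n => x.coeff ((p : ℤ) * n)) (by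
    refine ⟨min x.order 0, fun n hn => ?_⟩
    by_contra h
    apply hn
    show x.coeff ((p : ℤ) * n) = 0
    apply coeff_eq_zero_of_lt_order
    rw [not_le, lt_min_iff] at h
    have h1 : (p : ℤ) * n ≤ 1 * n := by
      apply mul_le_mul_of_nonpos_right _ h.2.le
      exact_mod_cast hp
    omega)
  map_zero' := by
    ext n
    rfl
  map_add' x y := by
    ext n
    rfl

theorem coeff_cL {p : ℕ} (hp : 0 < p) (x : LaurentSeries R) (n : ℤ) :
    (cL p hp x).coeff n = x.coeff ((p : ℤ) * n) := rfl

/-- the operator `z d/dz` -/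
noncomputable def th : LaurentSeries R →+ LaurentSeries R where
  toFun x := ⟨fun n => (n : R) * x.coeff n, x.isPWO_support.mono (by
    intro n hn h
    apply hn
    show (n : R) * x.coeff n = 0
    rw [h, mul_zero])⟩
  map_zero' := by
    ext n
    show (n : R) * (0 : LaurentSeries R).coeff n = 0
    rw [coeff_zero, mul_zero]
  map_add' x y := by
    ext n
    show (n : R) * (x + y).coeff n = (n : R) * x.coeff n + (n : R) * y.coeff n
    rw [coeff_add, mul_add]

theorem coeff_th (x : LaurentSeries R) (n : ℤ) : (th x).coeff n = (n : R) * x.coeff n := rfl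

theorem lo_th {N : ℤ} {x : LaurentSeries R} (h : lo N x) : lo N (th x) := by
  intro n hn
  rw [coeff_th, h n hn, mul_zero]

theorem lo_th_one {x : LaurentSeries R} (h : lo 0 x) : lo 1 (th x) := by
  intro n hn
  rw [coeff_th]
  rcases lt_or_eq_of_le (Int.lt_add_one_iff.1 hn : n ≤ 0) with h1 | h1
  · rw [h n h1, mul_zero]
  · rw [h1, Int.cast_zero, zero_mul]

theorem th_mul (x y : LaurentSeries R) : th (x * y) = x * th y + th x * y := by
  ext a
  have hs : ∀ x : LaurentSeries R, (th x).support ⊆ x.support := by
    intro x n hn h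
    apply hn
    show (n : R) * x.coeff n = 0
    have h' : x.coeff n = 0 := h
    rw [h', mul_zero]
  rw [coeff_th, coeff_add, coeff_mul, coeff_mul_right' y.isPWO_support (hs y),
    coeff_mul_left' x.isPWO_support (hs x), ← sum_add_distrib, mul_sum]
  refine sum_congr rfl fun ij hij => ?_
  rw [Finset.mem_antidiagonal] at hij
  rw [coeff_th, coeff_th, ← hij.2.2, Int.cast_add]
  ring

theorem th_one : th (1 : LaurentSeries R) = 0 := by
  ext n
  rw [coeff_th, coeff_one, coeff_zero]
  split_ifs with h
  · rw [h, Int.cast_zero, zero_mul]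
  · rw [mul_zero]

theorem th_pow (x : LaurentSeries R) (n : ℕ) : th (x ^ n) = n * x ^ (n - 1) * th x := by
  induction n with
  | zero => rw [pow_zero, th_one, Nat.cast_zero, zero_mul, zero_mul]
  | succ n ih =>
    rw [pow_succ, th_mul, ih, Nat.add_sub_cancel]
    rcases n with _ | n
    · simp
    · rw [Nat.add_sub_cancel, pow_succ]
      push_cast
      ring

theorem th_natCast_mul (c : ℕ) (x : LaurentSeries R) : th ((c : LaurentSeries R) * x) = c * th x := by
  rw [← nsmul_eq_mul, map_nsmul, nsmul_eq_mul]

theorem th_sg (σ : R →+* R') (x : LaurentSeries R) : th (sg σ x) = sg σ (th x) := by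
  ext n
  rw [coeff_th, coeff_sg, coeff_sg, coeff_th, map_mul, map_intCast]

theorem lo_cL {p : ℕ} (hp : 0 < p) {N N' : ℤ} {x : LaurentSeries R} (h : lo N' x)
    (hN : ∀ n < N, (p : ℤ) * n < N') : lo N (cL p hp x) := by
  intro n hn
  rw [coeff_cL]
  exact h _ (hN n hn)

theorem cL_single {p : ℕ} (hp : 0 < p) (n : ℤ) (a : R) :
    cL p hp (single ((p : ℤ) * n) a) = single n a := by
  ext m
  rw [coeff_cL]
  by_cases h : m = n
  · rw [h, coeff_single_same, coeff_single_same]
  · rw [coeff_single_of_ne h, coeff_single_of_ne]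
    intro h1
    exact h (mul_left_cancel₀ (by exact_mod_cast hp.ne') h1)

theorem cL_EL {p : ℕ} (hp : 0 < p) (v h : LaurentSeries R) :
    cL p hp (EL R p hp v * h) = v * cL p hp h := by
  set δ : LaurentSeries R →+ LaurentSeries R :=
    (cL p hp).comp ((AddMonoidHom.mulRight h).comp (EL R p hp).toAddMonoidHom) -
      AddMonoidHom.mulRight (cL p hp h) with hδ
  have hδa : ∀ v, δ v = cL p hp (EL R p hp v * h) - v * cL p hp h := fun v => rfl
  have h0 : δ v = 0 := by
    apply cont
    · intro n a
      rw [hδa, EL_single]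
      ext m
      have e : (p : ℤ) * (m - n) = p * m - p * n := by ring
      rw [coeff_sub, coeff_cL, coeff_single_mul, coeff_single_mul, coeff_cL, e, sub_self,
        coeff_zero]
    · intro m
      obtain ⟨c, hc⟩ := exists_lo h
      have hc' : lo (-(c : ℤ)) (cL p hp h) := by
        refine lo_cL hp hc fun n hn => ?_
        have : (p : ℤ) * n ≤ 1 * n := by
          apply mul_le_mul_of_nonpos_right _ (by omega)
          exact_mod_cast hp
        omega
      refine ⟨m + c + 1, fun x hx => ?_⟩
      rw [hδa, coeff_sub, coeff_cL, lo_mul (lo_EL hp hx) hc _ ?_, lo_mul hx hc' _ (by omega),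
        sub_zero]
      have h1 : (1 : ℤ) * (c + 1) ≤ p * (c + 1) := by
        apply mul_le_mul_of_nonneg_right _ (by omega)
        exact_mod_cast hp
      have e : (p : ℤ) * (m + c + 1) = p * m + p * (c + 1) := by ring
      omega
  rw [hδa, sub_eq_zero] at h0
  exact h0

end ops

section chp

variable {K : Type} [Field K] {p : ℕ} [hp : Fact p.Prime] [CharP K p]

noncomputable instance charP_laurent : CharP (LaurentSeries K) p :=
  charP_of_injective_ringHom (f := (HahnSeries.C : K →+* LaurentSeries K)) HahnSeries.C_injective p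

theorem pow_eq_EL (x : LaurentSeries K) :
    x ^ p = EL K p hp.out.pos (sg (frobenius K p) x) := by
  set δ : LaurentSeries K →+ LaurentSeries K :=
    (frobenius (LaurentSeries K) p).toAddMonoidHom -
      ((EL K p hp.out.pos).comp (sg (frobenius K p))).toAddMonoidHom with hδ
  have hδa : ∀ x, δ x = x ^ p - EL K p hp.out.pos (sg (frobenius K p) x) := fun x => rfl
  have hp1 : (1 : ℤ) ≤ p := by exact_mod_cast hp.out.pos
  have h0 : δ x = 0 := by
    apply cont
    · intro n a
      have h1 : sg (frobenius K p) (single n a) = single n (a ^ p) := by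
        ext m
        rw [coeff_sg, coeff_single, coeff_single]
        split_ifs
        · exact frobenius_def _ _
        · exact map_zero _
      rw [hδa, h1, EL_single, single_pow, nsmul_eq_mul, sub_self]
    · intro m
      refine ⟨max 0 (m + 1), fun x hx => ?_⟩
      have h1 : m < p * max 0 (m + 1) := by
        have : 1 * max 0 (m + 1) ≤ p * max 0 (m + 1) :=
          mul_le_mul_of_nonneg_right hp1 (le_max_left _ _)
        have h2 := le_max_right 0 (m + 1)
        omega
      rw [hδa, coeff_sub, lo_pow hx p _ h1, lo_EL _ (lo_sg _ hx) _ h1, sub_zero]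
  rw [hδa, sub_eq_zero] at h0
  exact h0

/-- the Laurent series as a ring with an operator of Cartier -/
noncomputable def Car.laur (K : Type) [Field K] (p : ℕ) [hp : Fact p.Prime] [CharP K p] :
    Car p (LaurentSeries K) where
  E := EL K p hp.out.pos
  tw := sg (frobenius K p)
  c := cL p hp.out.pos
  c_E := cL_EL hp.out.pos
  pow := pow_eq_EL

theorem cL_th (x : LaurentSeries K) : cL p hp.out.pos (th x) = 0 := by
  ext n
  rw [coeff_cL, coeff_th, coeff_zero, Int.cast_mul, Int.cast_natCast, CharP.cast_eq_zero, zero_mul,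
    zero_mul]

/-- the derivative of the cross term -/
theorem th_cr (x y : LaurentSeries K) :
    th (cr p x y) = (x + y) ^ (p - 1) * th (x + y) - x ^ (p - 1) * th x - y ^ (p - 1) * th y := by
  have hp1 := hp.out.one_lt
  obtain ⟨q, hq⟩ : ∃ q, p = q + 1 := ⟨p - 1, by omega⟩
  have key : ∀ k ∈ Finset.Ioo 0 p, k * (p.choose k / p) = (p - 1).choose (k - 1) ∧
      (p - k) * (p.choose k / p) = (p - 1).choose k := by
    intro k hk
    rw [Finset.mem_Ioo] at hk
    have e2 : p * (p.choose k / p) = p.choose k :=
      Nat.mul_div_cancel' (hp.out.dvd_choose_self (by omega) hk.2)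
    have e3 : p * (p - 1).choose (k - 1) = p.choose k * k := by
      have := Nat.add_one_mul_choose_eq (p - 1) (k - 1)
      rw [Nat.sub_add_cancel hp.out.pos, Nat.sub_add_cancel hk.1] at this
      exact this
    have e4 : p * (p - 1).choose k = p.choose k * (p - k) := by
      have := Nat.add_one_mul_choose_eq (p - 1) (p - 1 - k)
      have h1 : p - 1 - k + 1 = p - k := by omega
      have h2 : (p - 1).choose (p - 1 - k) = (p - 1).choose k := Nat.choose_symm (by omega)
      have h3 : p.choose (p - k) = p.choose k := Nat.choose_symm hk.2.le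
      rw [Nat.sub_add_cancel hp.out.pos, h1, h2, h3] at this
      exact this
    constructor
    · apply Nat.eq_of_mul_eq_mul_left hp.out.pos
      rw [e3, ← e2, Nat.mul_div_cancel_left _ hp.out.pos]
      ring
    · apply Nat.eq_of_mul_eq_mul_left hp.out.pos
      rw [e4, ← e2, Nat.mul_div_cancel_left _ hp.out.pos]
      ring
  have h1 : th (cr p x y) = (∑ k ∈ Finset.Ioo 0 p,
      x ^ (k - 1) * y ^ (p - k) * (((p - 1).choose (k - 1) : ℕ) : LaurentSeries K)) * th x +
      (∑ k ∈ Finset.Ioo 0 p,
      x ^ k * y ^ (p - 1 - k) * (((p - 1).choose k : ℕ) : LaurentSeries K)) * th y := by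
    unfold cr
    rw [map_sum, Finset.sum_mul, Finset.sum_mul, ← Finset.sum_add_distrib]
    refine Finset.sum_congr rfl fun k hk => ?_
    obtain ⟨e1, e2⟩ := key k hk
    rw [← e1, ← e2, mul_comm _ ((p.choose k / p : ℕ) : LaurentSeries K), th_natCast_mul, th_mul,
      th_pow, th_pow]
    have e3 : p - k - 1 = p - 1 - k := by omega
    rw [e3]
    push_cast
    ring
  have h2 : ∑ k ∈ Finset.Ioo 0 p,
      x ^ (k - 1) * y ^ (p - k) * (((p - 1).choose (k - 1) : ℕ) : LaurentSeries K) =
      (x + y) ^ (p - 1) - x ^ (p - 1) := by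
    rw [add_pow, Finset.sum_range_succ, Nat.choose_self, Nat.cast_one, mul_one, Nat.sub_self,
      pow_zero, mul_one, add_sub_cancel_right]
    refine Finset.sum_bij (fun k _ => k - 1) ?_ ?_ ?_ ?_
    · intro k hk
      rw [Finset.mem_Ioo] at hk
      rw [Finset.mem_range]
      omega
    · intro a ha b hb hab
      rw [Finset.mem_Ioo] at ha hb
      omega
    · intro b hb
      rw [Finset.mem_range] at hb
      exact ⟨b + 1, Finset.mem_Ioo.2 ⟨by omega, by omega⟩, Nat.add_sub_cancel _ _⟩
    · intro k hk
      rw [Finset.mem_Ioo] at hk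
      have : p - k = p - 1 - (k - 1) := by omega
      rw [this]
  have h3 : ∑ k ∈ Finset.Ioo 0 p,
      x ^ k * y ^ (p - 1 - k) * (((p - 1).choose k : ℕ) : LaurentSeries K) =
      (x + y) ^ (p - 1) - y ^ (p - 1) := by
    rw [add_pow, Nat.sub_add_cancel hp.out.pos, Finset.range_eq_Ico,
      ← Finset.Ioo_insert_left hp.out.pos, Finset.sum_insert (by simp), pow_zero, one_mul,
      Nat.sub_zero, Nat.choose_zero_right, Nat.cast_one, mul_one, add_sub_cancel_left]
  rw [h1, h2, h3, map_add]
  ring

/-- the operator of Cartier on the logarithmic forms -/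
theorem cL_log (x : LaurentSeries K) :
    cL p hp.out.pos (x ^ (p - 1) * th x) = th (sg (frobenius K p) x) := by
  have hp1 : (1 : ℤ) ≤ p := by exact_mod_cast hp.out.pos
  have hadd : ∀ x y : LaurentSeries K,
      cL p hp.out.pos ((x + y) ^ (p - 1) * th (x + y)) - th (sg (frobenius K p) (x + y)) =
      (cL p hp.out.pos (x ^ (p - 1) * th x) - th (sg (frobenius K p) x)) +
      (cL p hp.out.pos (y ^ (p - 1) * th y) - th (sg (frobenius K p) y)) := by
    intro x y
    have h1 := th_cr (p := p) x y
    have h2 : (x + y) ^ (p - 1) * th (x + y) = th (cr p x y) + x ^ (p - 1) * th x +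
        y ^ (p - 1) * th y := by
      rw [h1]
      ring
    rw [h2, map_add, map_add, cL_th, map_add, map_add]
    ring
  set δ : LaurentSeries K →+ LaurentSeries K :=
    { toFun := fun x => cL p hp.out.pos (x ^ (p - 1) * th x) - th (sg (frobenius K p) x)
      map_zero' := by
        simp only [map_zero, mul_zero, sub_zero]
      map_add' := hadd } with hδ
  have hδa : ∀ x, δ x = cL p hp.out.pos (x ^ (p - 1) * th x) - th (sg (frobenius K p) x) :=
    fun x => rfl
  have h0 : δ x = 0 := by
    apply cont
    · intro n a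
      have h1 : sg (frobenius K p) (single n a) = single n (a ^ p) := by
        ext m
        rw [coeff_sg, coeff_single, coeff_single]
        split_ifs
        · exact frobenius_def _ _
        · exact map_zero _
      have h2 : ∀ a : K, th (single n a) = single n ((n : K) * a) := by
        intro a
        ext m
        rw [coeff_th, coeff_single, coeff_single]
        split_ifs with h
        · rw [h]
        · rw [mul_zero]
      have h3 : (single n a : LaurentSeries K) ^ (p - 1) * th (single n a) =
          single ((p : ℤ) * n) ((n : K) * a ^ p) := by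
        rw [h2, single_pow, single_mul_single]
        congr 1
        · rw [nsmul_eq_mul]
          have : ((p - 1 : ℕ) : ℤ) = p - 1 := by
            rw [Nat.cast_sub hp.out.pos]
            rfl
          rw [this]
          ring_nf
        · rw [mul_left_comm, ← pow_succ, Nat.sub_add_cancel hp.out.pos]
      rw [hδa, h3, cL_single, h1, h2, sub_self]
    · intro m
      refine ⟨max 0 (m + 1), fun x hx => ?_⟩
      have h2 := le_max_right 0 (m + 1)
      have h4 := le_max_left 0 (m + 1)
      have h1 : (p : ℤ) * m < ((p - 1 : ℕ) : ℤ) * max 0 (m + 1) + max 0 (m + 1) := by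
        have e : ((p - 1 : ℕ) : ℤ) * max 0 (m + 1) + max 0 (m + 1) = p * max 0 (m + 1) := by
          have : ((p - 1 : ℕ) : ℤ) = p - 1 := by
            rw [Nat.cast_sub hp.out.pos]
            rfl
          rw [this]
          ring
        rw [e]
        have : m < max 0 (m + 1) := by omega
        exact mul_lt_mul_of_pos_left this (by omega)
      rw [hδa, coeff_sub, coeff_cL, lo_mul (lo_pow hx (p - 1)) (lo_th hx) _ h1,
        lo_th (lo_sg _ hx) _ (by omega), sub_zero]
  rw [hδa, sub_eq_zero] at h0
  exact h0

end chp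

end Pool.Agent.K4H5.BD
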