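import Pool.Agent.K4H5.BD.Forms
import Mathlib.FieldTheory.IsAlgClosed.Basic

/-!
The curves with a parametrisation by polynomials.
-/

set_option autoImplicit false
set_option linter.unusedSectionVars false

open Polynomial

namespace Pool.Agent.K4H5.BD

section chain

variable {K : Type} [Field K]

theorem th_C (c : K) : th (HahnSeries.C c : LaurentSeries K) = 0 := by
  ext n
  rw [coeff_th, HahnSeries.C_apply, HahnSeries.coeff_single, HahnSeries.coeff_zero]
  split_ifs with h
  · rw [h, Int.cast_zero, zero_mul]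
  · rw [mul_zero]

/-- the chain rule -/
theorem th_evT (Z : LaurentSeries K) (q : K[X]) : th (evT Z q) = evT Z (derivative q) * th Z := by
  induction q using Polynomial.induction_on' with
  | add a b ha hb => rw [map_add, map_add, ha, hb, derivative_add, map_add, add_mul]
  | monomial n c =>
    rw [← C_mul_X_pow_eq_monomial, map_mul, map_pow, evT_C, evT_X, th_mul, th_C, zero_mul, add_zero,
      th_pow, derivative_C_mul_X_pow, map_mul, map_pow, evT_C, evT_X, map_mul, map_natCast]
    ring

/-- the restriction to a parametrised curve -/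
noncomputable def par (A B : K[X]) : K[X][X] →+* K[X] := eval₂RingHom (eval₂RingHom C A) B

theorem val_par (Z : LaurentSeries K) (A B : K[X]) (u : K[X][X]) :
    val (evT Z A) (evT Z B) u = evT Z (par A B u) := by
  have h : val (evT Z A) (evT Z B) = (evT Z).comp (par A B) := by
    refine Polynomial.ringHom_ext ?_ ?_
    · intro c
      have h1 : evT (evT Z A) = (evT Z).comp (eval₂RingHom C A) := by
        refine Polynomial.ringHom_ext ?_ ?_
        · intro a
          rw [RingHom.comp_apply, evT_C, coe_eval₂RingHom, eval₂_C, evT_C]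
        · rw [RingHom.comp_apply, evT_X, coe_eval₂RingHom, eval₂_X]
      unfold val par
      rw [RingHom.comp_apply, coe_eval₂RingHom, eval₂_C, coe_eval₂RingHom, eval₂_C, h1,
        RingHom.comp_apply]
    · unfold val par
      rw [RingHom.comp_apply, coe_eval₂RingHom, eval₂_X, coe_eval₂RingHom, eval₂_X]
  exact RingHom.congr_fun h u

theorem lo_evT0 {Z : LaurentSeries K} (hZ : lo 0 Z) (q : K[X]) : lo 0 (evT Z q) :=
  lo_evT hZ q fun j _ => by simp

/-- the parameter at a finite point -/
noncomputable def Zf (z : K) : LaurentSeries K := HahnSeries.C z + HahnSeries.single 1 1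

theorem lo_Zf (z : K) : lo 0 (Zf z) := by
  refine lo_add (lo_C z) ?_
  intro n hn
  rw [HahnSeries.coeff_single_of_ne (by omega)]

theorem th_Zf (z : K) : th (Zf z) = HahnSeries.single 1 1 := by
  unfold Zf
  rw [map_add, th_C, zero_add]
  ext n
  rw [coeff_th, HahnSeries.coeff_single]
  split_ifs with h
  · rw [h, Int.cast_one, one_mul]
  · rw [mul_zero]

theorem evT_lin (z : K) : evT (Zf z) (X - C z) = HahnSeries.single 1 1 := by
  rw [map_sub, evT_X, evT_C]
  unfold Zf
  ring

theorem coeff_evT_Zf (z : K) (q : K[X]) : (evT (Zf z) q).coeff 0 = q.eval z := by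
  obtain ⟨q2, hq2⟩ := X_sub_C_dvd_sub_C_eval (p := q) (a := z)
  have h1 : q = C (q.eval z) + (X - C z) * q2 := by
    rw [← hq2]
    ring
  have h2 : (evT (Zf z) q).coeff 0 = (HahnSeries.C (q.eval z) +
      HahnSeries.single 1 1 * evT (Zf z) q2 : LaurentSeries K).coeff 0 := by
    conv_lhs => rw [h1, map_add, map_mul, evT_lin, evT_C]
  rw [h2, HahnSeries.coeff_add, HahnSeries.coeff_single_mul, HahnSeries.C_apply,
    HahnSeries.coeff_single_same, lo_evT0 (lo_Zf z) q2 _ (by norm_num), mul_zero, add_zero]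

/-- the multiplicities and the orders -/
theorem mult_le {z : K} {P Q : K[X]} (hP : P ≠ 0) {h : LaurentSeries K} (hh : lo 0 h)
    (hPQ : evT (Zf z) P = evT (Zf z) Q * h) : Q.rootMultiplicity z ≤ P.rootMultiplicity z := by
  by_contra hlt
  rw [not_le] at hlt
  set m := Q.rootMultiplicity z with hm
  set m' := P.rootMultiplicity z with hm'
  obtain ⟨Q1, hQ1⟩ := pow_rootMultiplicity_dvd Q z
  obtain ⟨P1, hP1, hP2⟩ := exists_eq_pow_rootMultiplicity_mul_and_not_dvd P hP z
  have hP3 : P1.eval z ≠ 0 := by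
    intro h0
    exact hP2 (dvd_iff_isRoot.2 h0)
  rw [← hm] at hQ1
  rw [← hm'] at hP1
  have e1 : evT (Zf z) P = HahnSeries.single (m' : ℤ) 1 * evT (Zf z) P1 := by
    conv_lhs => rw [hP1, map_mul, map_pow, evT_lin, HahnSeries.single_pow, one_pow, nsmul_eq_mul,
      mul_one]
  have e2 : evT (Zf z) Q = HahnSeries.single (m : ℤ) 1 * evT (Zf z) Q1 := by
    conv_lhs => rw [hQ1, map_mul, map_pow, evT_lin, HahnSeries.single_pow, one_pow, nsmul_eq_mul,
      mul_one]
  have e3 := congrArg (fun y => HahnSeries.coeff y (m' : ℤ)) hPQ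
  rw [e1, e2, mul_assoc, HahnSeries.coeff_single_mul, HahnSeries.coeff_single_mul, sub_self,
    coeff_evT_Zf, one_mul, one_mul, lo_mul (lo_evT0 (lo_Zf z) Q1) hh _ (by
      have : (m' : ℤ) < m := by exact_mod_cast hlt
      omega)] at e3
  exact hP3 e3

/-- the parameter at infinity -/
noncomputable def Zi (K : Type) [Field K] : LaurentSeries K := HahnSeries.single (-1) 1

theorem th_Zi : th (Zi K) = -Zi K := by
  unfold Zi
  ext n
  rw [coeff_th, HahnSeries.coeff_neg, HahnSeries.coeff_single]
  split_ifs with h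
  · rw [h]
    push_cast
    ring
  · rw [mul_zero, neg_zero]

theorem evT_Zi (q : K[X]) (n : ℕ) : (evT (Zi K) q).coeff (-(n : ℤ)) = q.coeff n := by
  induction q using Polynomial.induction_on' with
  | add a b ha hb => rw [map_add, HahnSeries.coeff_add, ha, hb, coeff_add]
  | monomial m c =>
    rw [← C_mul_X_pow_eq_monomial, map_mul, map_pow, evT_C, evT_X]
    unfold Zi
    rw [HahnSeries.single_pow, one_pow, HahnSeries.C_apply, HahnSeries.single_mul_single, mul_one,
      zero_add, nsmul_eq_mul, mul_neg, mul_one, coeff_C_mul_X_pow, HahnSeries.coeff_single]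
    have : (-(n : ℤ) = -(m : ℤ)) ↔ n = m := by omega
    by_cases h : n = m
    · rw [if_pos (this.2 h), if_pos h]
    · rw [if_neg (fun h' => h (this.1 h')), if_neg h]

theorem lo_Zi (q : K[X]) : lo (-(q.natDegree : ℤ)) (evT (Zi K) q) := by
  refine lo_evT (A := -1) ?_ q ?_
  · intro n hn
    unfold Zi
    rw [HahnSeries.coeff_single_of_ne (by omega)]
  · intro j hj
    have := le_natDegree_of_ne_zero hj
    omega

theorem evT_Zi_inj {q : K[X]} (h : evT (Zi K) q = 0) : q = 0 := by
  ext n
  rw [← evT_Zi, h, HahnSeries.coeff_zero, coeff_zero]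

end chain

section line

variable {K : Type} [Field K] [IsAlgClosed K]

/-- there are no forms on a curve with a parametrisation by polynomials -/
theorem Adj_line (𝒟 : ℤ → Prop) {f g : K[X][X]} {A B : K[X]} {D : ℤ} (hg : derivative g ≠ 0)
    (hA : derivative A ≠ 0) (h0 : par A B g = 0) (hker : ∀ u, par A B u = 0 → g ∣ u)
    (hD : 𝒟 D) (hW : Wle (A.natDegree, B.natDegree) D f) : Adj 𝒟 f g = ⊥ := by
  classical
  rw [eq_bot_iff]
  intro u hu
  rw [Submodule.mem_bot]
  rw [mem_Adj] at hu
  obtain ⟨hu1, hu2⟩ := hu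
  by_contra hne
  -- the degrees
  have hug : ¬ g ∣ u := by
    intro hd
    have h1 := natDegree_le_of_dvd hd hne
    have h2 : u.coeff u.natDegree ≠ 0 := by
      rw [coeff_natDegree]
      exact leadingCoeff_ne_zero.2 hne
    have h3 : (u.coeff u.natDegree).coeff (u.coeff u.natDegree).natDegree ≠ 0 := by
      rw [coeff_natDegree]
      exact leadingCoeff_ne_zero.2 h2
    have := (hu1 _ _ h3).1
    omega
  have hgd : ¬ g ∣ derivative g := by
    intro hd
    have h1 := natDegree_le_of_dvd hd hg
    by_cases h2 : g.natDegree = 0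
    · apply hg
      rw [eq_C_of_natDegree_eq_zero h2, derivative_C]
    · have := natDegree_derivative_lt h2
      omega
  set P := par A B u * derivative A with hP
  set Q := par A B (derivative g) with hQ
  have hQ0 : Q ≠ 0 := fun h => hgd (hker _ h)
  have hP0 : P ≠ 0 := mul_ne_zero (fun h => hug (hker _ h)) hA
  have hinj : ∀ Z : LaurentSeries K, Z = Zi K → evT Z Q ≠ 0 := by
    rintro _ rfl h
    exact hQ0 (evT_Zi_inj h)
  have hinjf : ∀ (z : K) (q : K[X]), q ≠ 0 → evT (Zf z) q ≠ 0 := by
    intro z q hq h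
    obtain ⟨q1, h1, h2⟩ := exists_eq_pow_rootMultiplicity_mul_and_not_dvd q hq z
    rw [h1, map_mul, map_pow, evT_lin] at h
    rcases mul_eq_zero.1 h with h3 | h3
    · have h5 : (HahnSeries.single (1 : ℤ) (1 : K) : LaurentSeries K) ≠ 0 := by
        rw [Ne, HahnSeries.single_eq_zero_iff]
        exact one_ne_zero
      exact absurd h3 (pow_ne_zero _ h5)
    · apply h2
      rw [dvd_iff_isRoot, IsRoot.def, ← coeff_evT_Zf, h3, HahnSeries.coeff_zero]
  -- the finite points
  have hmult : ∀ z : K, Q.rootMultiplicity z ≤ P.rootMultiplicity z := by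
    intro z
    have h1 := (hu2 (evT (Zf z) A) (evT (Zf z) B) (by rw [val_par, h0, map_zero])).1
      (lo_evT0 (lo_Zf z) A) (lo_evT0 (lo_Zf z) B)
    have h2 : lo 0 (HahnSeries.single (-1 : ℤ) (1 : K) *
        form g u (evT (Zf z) A) (evT (Zf z) B)) := by
      intro n hn
      rw [HahnSeries.coeff_single_mul, h1 _ (by omega), mul_zero]
    refine mult_le hP0 h2 ?_
    unfold form
    rw [val_par, val_par, th_evT, th_Zf, ← hQ]
    have h3 : evT (Zf z) Q ≠ 0 := hinjf z Q hQ0
    have h4 : (HahnSeries.single (-1 : ℤ) (1 : K) : LaurentSeries K) * HahnSeries.single 1 1 = 1 := by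
      rw [HahnSeries.single_mul_single, mul_one, neg_add_cancel]
      rfl
    have h5 : evT (Zf z) P = evT (Zf z) (par A B u) * evT (Zf z) (derivative A) := by
      rw [hP, map_mul]
    rw [h5]
    field_simp
    linear_combination (-(evT (Zf z) (par A B u) * evT (Zf z) (derivative A))) * h4
  have hdvd : Q ∣ P := by
    have h1 : Q.roots ≤ P.roots := by
      rw [Multiset.le_iff_count]
      intro z
      rw [count_roots, count_roots]
      exact hmult z
    exact (IsAlgClosed.splits Q).dvd_of_roots_le_roots hQ0 h1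
  obtain ⟨h, hh⟩ := hdvd
  -- infinity
  have h1 := (hu2 (evT (Zi K) A) (evT (Zi K) B) (by rw [val_par, h0, map_zero])).2
    A.natDegree B.natDegree D hD (lo_Zi A) (lo_Zi B) hW
  have h2 : form g u (evT (Zi K) A) (evT (Zi K) B) = -(Zi K * evT (Zi K) h) := by
    unfold form
    rw [val_par, val_par, th_evT, th_Zi, ← hQ, div_eq_iff (hinj _ rfl)]
    have h5 : evT (Zi K) (par A B u) * evT (Zi K) (derivative A) = evT (Zi K) Q * evT (Zi K) h := by
      rw [← map_mul, ← map_mul, ← hh]
    linear_combination -(Zi K) * h5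
  have hh0 : h ≠ 0 := by
    rintro rfl
    rw [mul_zero] at hh
    exact hP0 hh
  have h3 := h1 (-(h.natDegree : ℤ) - 1) (by omega)
  rw [h2, HahnSeries.coeff_neg, neg_eq_zero] at h3
  unfold Zi at h3
  rw [HahnSeries.coeff_single_mul, one_mul] at h3
  have e : -(h.natDegree : ℤ) - 1 - -1 = -(h.natDegree : ℤ) := by ring
  rw [e] at h3
  have h4 := evT_Zi h h.natDegree
  unfold Zi at h4
  rw [h3, coeff_natDegree] at h4
  exact hh0 (leadingCoeff_eq_zero.1 h4.symm)

end line

end Pool.Agent.K4H5.BD
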