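import Pool.Agent.K4H5.BD.Theta
import Pool.Agent.K4H5.BD.Car
import Pool.Agent.K4H5.BC.Tr
import Mathlib.NumberTheory.Wilson

/-!
The polynomial of a digit.
-/

set_option autoImplicit false
set_option linter.unusedSectionVars false

open Polynomial

namespace Pool.Agent.K4H5.BD

open Pool.Agent.K4H5.BC

section te

variable {p : ℕ} [hp : Fact p.Prime] {B : Type} [CommRing B] [CharP B p]

theorem wilson : (((p - 1).factorial : ℕ) : B) = -1 := by
  have h1 := ZMod.wilsons_lemma p
  have h2 := congrArg (ZMod.castHom (dvd_refl p) B) h1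
  rw [map_natCast, map_neg, map_one] at h2
  exact h2

/-- the truncated exponential -/
noncomputable def te (p : ℕ) (inv : ℕ → B) (x : B) : B[X] :=
  ∑ i ∈ Finset.range p, C (inv i * x ^ i) * X ^ i

theorem coeff_te (inv : ℕ → B) (x : B) (r : ℕ) :
    (te p inv x).coeff r = if r < p then inv r * x ^ r else 0 := by
  unfold te
  rw [finsetSum_coeff]
  simp only [coeff_C_mul_X_pow]
  by_cases h : r < p
  · rw [if_pos h, Finset.sum_eq_single_of_mem r (Finset.mem_range.2 h), if_pos rfl]
    intro b _ hb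
    rw [if_neg (Ne.symm hb)]
  · rw [if_neg h]
    refine Finset.sum_eq_zero fun b hb => ?_
    rw [Finset.mem_range] at hb
    rw [if_neg (by omega)]

variable {inv : ℕ → B} (hinv : ∀ i < p, inv i * ((i.factorial : ℕ) : B) = 1)

include hinv

theorem inv_zero : inv 0 = 1 := by
  have := hinv 0 hp.out.pos
  rwa [Nat.factorial_zero, Nat.cast_one, mul_one] at this

theorem inv_last : inv (p - 1) = -1 := by
  have h1 := hinv (p - 1) (Nat.sub_lt hp.out.pos one_pos)
  rw [wilson] at h1
  linear_combination -h1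

theorem inv_succ {r : ℕ} (hr : r + 1 < p) : inv (r + 1) * ((r + 1 : ℕ) : B) = inv r := by
  have h1 := hinv (r + 1) hr
  have h2 := hinv r (by omega)
  rw [Nat.factorial_succ, Nat.cast_mul] at h1
  calc inv (r + 1) * ((r + 1 : ℕ) : B) =
      inv (r + 1) * ((r + 1 : ℕ) : B) * (inv r * ((r.factorial : ℕ) : B)) := by rw [h2, mul_one]
    _ = (inv (r + 1) * (((r + 1 : ℕ) : B) * ((r.factorial : ℕ) : B))) * inv r := by ring
    _ = inv r := by rw [h1, one_mul]

theorem derivative_te (x : B) :
    derivative (te p inv x) = C x * te p inv x + C (x ^ p) * X ^ (p - 1) := by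
  have hp1 := hp.out.one_lt
  ext r
  rw [coeff_derivative, coeff_te, coeff_add, coeff_C_mul, coeff_te, coeff_C_mul_X_pow]
  rcases lt_trichotomy (r + 1) p with h | h | h
  · rw [if_pos h, if_pos (by omega), if_neg (by omega), add_zero]
    have := inv_succ hinv h
    rw [Nat.cast_add, Nat.cast_one] at this
    rw [← this]
    ring
  · rw [if_neg (by omega), if_pos (by omega), if_pos (by omega), zero_mul]
    have h1 : r = p - 1 := by omega
    have h2 : x ^ p = x * x ^ (p - 1) := by
      rw [← pow_succ']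
      congr 1
      omega
    rw [h1, inv_last hinv, h2]
    ring
  · rw [if_neg (by omega), if_neg (by omega), if_neg (by omega), zero_mul, mul_zero, add_zero]

theorem inv_mul_inv {u : ℕ} (h0 : 0 < u) (hu : u < p) :
    inv u * inv (p - u) = -((p.choose u / p : ℕ) : B) := by
  have h1 := hinv u hu
  have h2 := hinv (p - u) (by omega)
  have h3 : (p.choose u / p) * (u.factorial * (p - u).factorial) = (p - 1).factorial := by
    have e1 := Nat.choose_mul_factorial_mul_factorial hu.le
    have e2 : p * (p.choose u / p) = p.choose u :=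
      Nat.mul_div_cancel' (hp.out.dvd_choose_self h0.ne' hu)
    have e3 : p.factorial = p * (p - 1).factorial :=
      (Nat.mul_factorial_pred hp.out.ne_zero).symm
    apply Nat.eq_of_mul_eq_mul_left hp.out.pos
    rw [← e3, ← e1, ← e2]
    rw [Nat.mul_div_cancel_left _ hp.out.pos]
    ring
  have h4 := congrArg (Nat.cast : ℕ → B) h3
  rw [wilson] at h4
  push_cast at h4
  calc inv u * inv (p - u) =
      -(inv u * inv (p - u) * (-1)) := by ring
    _ = -((inv u * ((u.factorial : ℕ) : B)) * (inv (p - u) * (((p - u).factorial : ℕ) : B)) *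
        ((p.choose u / p : ℕ) : B)) := by
      rw [← h4]
      ring
    _ = _ := by rw [h1, h2, one_mul, one_mul]

omit hinv

variable {ι : Type} [DecidableEq ι] (m : ι → B)

/-- the product of the truncated exponentials -/
noncomputable def tP (p : ℕ) (inv : ℕ → B) (s : Finset ι) (m : ι → B) : B[X] :=
  ∏ b ∈ s, te p inv (m b)

include hinv

theorem derivative_tP (s : Finset ι) :
    derivative (tP p inv s m) = C (∑ b ∈ s, m b) * tP p inv s m +
      X ^ (p - 1) * ∑ b ∈ s, C (m b ^ p) * tP p inv (s.erase b) m := by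
  unfold tP
  rw [derivative_prod_finset, map_sum, Finset.sum_mul, Finset.mul_sum, ← Finset.sum_add_distrib]
  refine Finset.sum_congr rfl fun b hb => ?_
  rw [derivative_te hinv, ← Finset.mul_prod_erase s _ hb]
  ring

theorem tP_rec (s : Finset ι) (r : ℕ) :
    (tP p inv s m).coeff (r + 1) * ((r + 1 : ℕ) : B) = (∑ b ∈ s, m b) * (tP p inv s m).coeff r +
      if p - 1 ≤ r then ∑ b ∈ s, m b ^ p * (tP p inv (s.erase b) m).coeff (r - (p - 1)) else 0 := by
  have h := congrArg (fun q => coeff q r) (derivative_tP hinv m s)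
  rw [coeff_derivative, coeff_add, coeff_C_mul, coeff_X_pow_mul'] at h
  rw [Nat.cast_add, Nat.cast_one, h]
  congr 1
  split_ifs with h1
  · rw [finsetSum_coeff]
    refine Finset.sum_congr rfl fun b _ => ?_
    rw [coeff_C_mul]
  · rfl

theorem tP_zero (s : Finset ι) : (tP p inv s m).coeff 0 = 1 := by
  unfold tP
  rw [coeff_zero_prod]
  refine Finset.prod_eq_one fun b _ => ?_
  rw [coeff_te, if_pos hp.out.pos, pow_zero, mul_one, inv_zero hinv]

theorem tP_small (s : Finset ι) {r : ℕ} (hr : r < p) :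
    ((r.factorial : ℕ) : B) * (tP p inv s m).coeff r = (∑ b ∈ s, m b) ^ r := by
  induction r with
  | zero => rw [Nat.factorial_zero, Nat.cast_one, one_mul, pow_zero, tP_zero hinv]
  | succ r ih =>
    have h1 := tP_rec hinv m s r
    rw [if_neg (by omega), add_zero] at h1
    rw [Nat.factorial_succ, Nat.cast_mul, pow_succ', ← ih (by omega)]
    linear_combination ((r.factorial : ℕ) : B) * h1

theorem tP_small' (s : Finset ι) {r : ℕ} (hr : r < p) :
    (tP p inv s m).coeff r = inv r * (∑ b ∈ s, m b) ^ r := by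
  rw [← tP_small hinv m s hr, ← mul_assoc, hinv r hr, one_mul]

theorem tP_insert (s : Finset ι) {b : ι} (hb : b ∉ s) :
    (tP p inv (insert b s) m).coeff p =
      (tP p inv s m).coeff p - cr p (m b) (∑ b ∈ s, m b) := by
  have h1 : tP p inv (insert b s) m = te p inv (m b) * tP p inv s m := by
    unfold tP
    rw [Finset.prod_insert hb]
  rw [h1, coeff_mul, Finset.Nat.sum_antidiagonal_eq_sum_range_succ
    (fun i j => (te p inv (m b)).coeff i * (tP p inv s m).coeff j), Finset.sum_range_succ,
    coeff_te, if_neg (lt_irrefl p), zero_mul, add_zero, Finset.range_eq_Ico,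
    ← Finset.Ioo_insert_left hp.out.pos, Finset.sum_insert (by simp), coeff_te,
    if_pos hp.out.pos, pow_zero, mul_one, inv_zero hinv, one_mul, Nat.sub_zero]
  have h2 : ∑ x ∈ Finset.Ioo 0 p, (te p inv (m b)).coeff x * (tP p inv s m).coeff (p - x) =
      -cr p (m b) (∑ b ∈ s, m b) := by
    unfold cr
    rw [← Finset.sum_neg_distrib]
    refine Finset.sum_congr rfl fun u hu => ?_
    rw [Finset.mem_Ioo] at hu
    rw [coeff_te, if_pos hu.2, tP_small' hinv m s (by omega)]
    have h3 := inv_mul_inv hinv hu.1 hu.2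
    linear_combination (m b ^ u * (∑ b ∈ s, m b) ^ (p - u)) * h3
  rw [h2]
  ring

end te

section junk

variable {p : ℕ} [hp : Fact p.Prime] {M : Type} [CommRing M] [CharP M p]

/-- the sums of products of a polynomial in `x ^ p` and a polynomial of degree at most `a i` -/
noncomputable def Jk (p : ℕ) (d : ℕ) : AddSubgroup M[X] :=
  AddSubgroup.closure {H | ∃ v q : M[X], q.natDegree ≤ d ∧ H = expand M p v * q}

theorem Jk_mem (v q : M[X]) {d : ℕ} (h : q.natDegree ≤ d) : expand M p v * q ∈ Jk (M := M) p d :=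
  AddSubgroup.subset_closure ⟨v, q, h, rfl⟩

theorem Jk_mul {H g : M[X]} {d d' : ℕ} (hH : H ∈ Jk (M := M) p d) (hg : g.natDegree ≤ d') :
    g * H ∈ Jk (M := M) p (d + d') := by
  unfold Jk at hH
  induction hH using AddSubgroup.closure_induction with
  | mem x hx =>
    obtain ⟨v, q, hq, rfl⟩ := hx
    have e : g * (expand M p v * q) = expand M p v * (g * q) := by ring
    rw [e]
    refine Jk_mem _ _ (natDegree_mul_le.trans ?_)
    omega
  | zero =>
    rw [mul_zero]
    exact zero_mem _
  | add x y _ _ hx hy =>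
    rw [mul_add]
    exact add_mem hx hy
  | neg x _ hx =>
    rw [mul_neg]
    exact neg_mem hx

theorem Jk_c (D : Car p M) {H : M[X]} {d : ℕ} (hH : H ∈ Jk (M := M) p d) (hd : d + 1 < p) :
    D.poly.c H = 0 := by
  unfold Jk at hH
  induction hH using AddSubgroup.closure_induction with
  | mem x hx =>
    obtain ⟨v, q, hq, rfl⟩ := hx
    exact D.c_expand v q (by omega)
  | zero => exact map_zero _
  | add x y _ _ hx hy => rw [map_add, hx, hy, add_zero]
  | neg x _ hx => rw [map_neg, hx, neg_zero]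

variable {ι : Type} [DecidableEq ι] {m : ι → M[X]} {inv : ℕ → M[X]}
  (hinv : ∀ i < p, inv i * ((i.factorial : ℕ) : M[X]) = 1) (hinv0 : ∀ i, (inv i).natDegree = 0)
  {a : ℕ} (hm : ∀ b, (m b).natDegree ≤ a) (hmp : ∀ b, ∃ v, m b ^ p = expand M p v)

include hinv0 hm

theorem natDegree_tP (s : Finset ι) (r : ℕ) : ((tP p inv s m).coeff r).natDegree ≤ a * r := by
  induction s using Finset.induction_on generalizing r with
  | empty =>
    unfold tP
    rw [Finset.prod_empty, coeff_one]
    split_ifs
    · rw [natDegree_one]; exact Nat.zero_le _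
    · rw [natDegree_zero]; exact Nat.zero_le _
  | insert b s hb ih =>
    have h1 : tP p inv (insert b s) m = te p inv (m b) * tP p inv s m := by
      unfold tP
      rw [Finset.prod_insert hb]
    rw [h1, coeff_mul]
    refine natDegree_sum_le_of_forall_le _ _ fun x hx => ?_
    have hx := Finset.HasAntidiagonal.mem_antidiagonal.1 hx
    refine natDegree_mul_le.trans ?_
    rw [coeff_te]
    have h2 : (if x.1 < p then inv x.1 * m b ^ x.1 else 0 : M[X]).natDegree ≤ a * x.1 := by
      split_ifs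
      · refine natDegree_mul_le.trans ?_
        rw [hinv0, zero_add]
        refine natDegree_pow_le.trans ?_
        rw [mul_comm]
        exact Nat.mul_le_mul_right _ (hm b)
      · rw [natDegree_zero]; exact Nat.zero_le _
    have h3 := ih x.2
    rw [← hx, mul_add]
    exact Nat.add_le_add h2 h3

include hinv hmp

theorem tP_big (s : Finset ι) {r : ℕ} (hr : r < p) :
    ((r.factorial : ℕ) : M[X]) * (tP p inv s m).coeff (p + r) -
      (∑ b ∈ s, m b) ^ r * (tP p inv s m).coeff p ∈ Jk (M := M) p (a * r) := by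
  have hp1 := hp.out.one_lt
  induction r with
  | zero =>
    rw [Nat.factorial_zero, Nat.cast_one, one_mul, pow_zero, one_mul, add_zero, sub_self]
    exact zero_mem _
  | succ r ih =>
    have h1 := tP_rec hinv m s (p + r)
    rw [if_pos (by omega)] at h1
    have e1 : p + r - (p - 1) = r + 1 := by omega
    rw [e1] at h1
    have e2 : ((p + r + 1 : ℕ) : M[X]) = ((r + 1 : ℕ) : M[X]) := by
      rw [add_assoc, Nat.cast_add, CharP.cast_eq_zero, zero_add]
    rw [e2] at h1
    set F := ∑ b ∈ s, m b with hF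
    have hFd : F.natDegree ≤ a := natDegree_sum_le_of_forall_le _ _ fun b _ => hm b
    have h2 := Jk_mul (ih (by omega)) hFd
    have h3 : ∑ b ∈ s, m b ^ p * (tP p inv (s.erase b) m).coeff (r + 1) ∈
        Jk (M := M) p (a * (r + 1)) := by
      refine sum_mem fun b _ => ?_
      obtain ⟨v, hv⟩ := hmp b
      rw [hv]
      exact Jk_mem _ _ (natDegree_tP hinv0 hm _ _)
    have h4 : ((r.factorial : ℕ) : M[X]) * ∑ b ∈ s, m b ^ p * (tP p inv (s.erase b) m).coeff (r + 1) ∈
        Jk (M := M) p (a * (r + 1)) := by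
      have := Jk_mul h3 (d' := 0) (g := ((r.factorial : ℕ) : M[X])) (by rw [natDegree_natCast])
      rwa [add_zero] at this
    have e3 : a * r + a = a * (r + 1) := by ring
    rw [e3] at h2
    have h5 := add_mem h2 h4
    have e4 : (((r + 1).factorial : ℕ) : M[X]) * (tP p inv s m).coeff (p + (r + 1)) -
        F ^ (r + 1) * (tP p inv s m).coeff p =
        F * (((r.factorial : ℕ) : M[X]) * (tP p inv s m).coeff (p + r) -
          F ^ r * (tP p inv s m).coeff p) +
        ((r.factorial : ℕ) : M[X]) *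
          ∑ b ∈ s, m b ^ p * (tP p inv (s.erase b) m).coeff (r + 1) := by
      rw [Nat.factorial_succ, Nat.cast_mul, ← add_assoc p r 1]
      linear_combination ((r.factorial : ℕ) : M[X]) * h1
    rw [e4]
    exact h5

omit hinv0 hm hmp

theorem tP_th (hth : ∀ b, IsTh p (m b) 0) (s : Finset ι) :
    IsTh p (∑ b ∈ s, m b) (-(tP p inv s m).coeff p) := by
  induction s using Finset.induction_on with
  | empty =>
    have h1 : tP p inv ∅ m = (1 : M[X][X]) := by
      unfold tP
      rw [Finset.prod_empty]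
    rw [Finset.sum_empty, h1, coeff_one, if_neg hp.out.ne_zero, neg_zero]
    have h := IsTh.mono (p := p) (0 : M) 0
    rwa [C_0, zero_mul] at h
  | insert b s hb ih =>
    have h1 := (hth b).add ih
    rw [Finset.sum_insert hb, tP_insert hinv m s hb]
    have e : -((tP p inv s m).coeff p - cr p (m b) (∑ b ∈ s, m b)) =
      0 + -(tP p inv s m).coeff p + cr p (m b) (∑ b ∈ s, m b) := by ring
    rw [e]
    exact h1

end junk

section digit

variable {p : ℕ} [hp : Fact p.Prime] {M : Type} [CommRing M] [CharP M p] {a : ℕ}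

theorem Ep_eq (r : ℕ) (inv : ℕ → M) (c : Fin (a + 1) → M) :
    Ep p r inv c = (tP p (fun i => C (inv i)) Finset.univ
      (fun b : Fin (a + 1) => C (c b) * X ^ (b : ℕ))).coeff r := by
  classical
  unfold tP te Ep
  have h1 : ∀ b : Fin (a + 1), (∑ i ∈ Finset.range p,
      C (C (inv i) * (C (c b) * X ^ (b : ℕ)) ^ i) * X ^ i : M[X][X]) =
      ∑ i : Fin p, C (C (inv i) * (C (c b) * X ^ (b : ℕ)) ^ (i : ℕ)) * X ^ (i : ℕ) := by
    intro b
    rw [Finset.sum_range]
  rw [Finset.prod_congr rfl fun b _ => h1 b, Finset.prod_univ_sum, finsetSum_coeff,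
    Finset.sum_filter, Fintype.piFinset_univ]
  refine Finset.sum_congr rfl fun v _ => ?_
  have h2 : (∏ b : Fin (a + 1), (C (C (inv (v b)) * (C (c b) * X ^ (b : ℕ)) ^ (v b : ℕ)) *
      X ^ (v b : ℕ)) : M[X][X]) =
      C (∏ b : Fin (a + 1), (C (inv (v b)) * (C (c b) * X ^ (b : ℕ)) ^ (v b : ℕ))) *
        X ^ (∑ b, (v b : ℕ)) := by
    rw [Finset.prod_mul_distrib, Finset.prod_pow_eq_pow_sum, map_prod]
  rw [h2, coeff_C_mul, coeff_X_pow]
  by_cases h : ∑ b, (v b : ℕ) = r
  · rw [if_pos h, if_pos h.symm, mul_one, map_prod, ← Finset.prod_pow_eq_pow_sum,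
      ← Finset.prod_mul_distrib]
    refine Finset.prod_congr rfl fun b _ => ?_
    rw [mul_pow, ← C_pow, ← pow_mul, C_mul]
    ring
  · rw [if_neg h, if_neg (Ne.symm h), mul_zero]

/-- the polynomial of a digit -/
theorem gA_eq {inv : ℕ → M} (hinv : ∀ i < p, inv i * ((i.factorial : ℕ) : M) = 1)
    (c : Fin (a + 1) → M) {r : ℕ} (hr : r < p) :
    ∃ Θ : M[X], IsTh p (∑ b, C (c b) * X ^ (b : ℕ)) Θ ∧
      gA p (r + 1) inv c - ((r + 1 : ℕ) : M[X]) * ((∑ b, C (c b) * X ^ (b : ℕ)) ^ r * Θ) ∈
        Jk (M := M) p (a * r) := by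
  classical
  have hinv' : ∀ i < p, (C (inv i) : M[X]) * ((i.factorial : ℕ) : M[X]) = 1 := by
    intro i hi
    rw [← map_natCast (C : M →+* M[X]), ← C_mul, hinv i hi, C_1]
  have h1 := tP_th (m := fun b : Fin (a + 1) => C (c b) * X ^ (b : ℕ)) hinv'
    (fun b => IsTh.mono _ _) Finset.univ
  refine ⟨_, h1, ?_⟩
  have h2 := tP_big (m := fun b : Fin (a + 1) => C (c b) * X ^ (b : ℕ)) (a := a) hinv'
    (fun i => natDegree_C _) (fun b => (natDegree_C_mul_X_pow_le _ _).trans (Nat.lt_succ_iff.1 b.2))
    (fun b => ⟨C (c b ^ p) * X ^ (b : ℕ), by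
      rw [map_mul, expand_C, map_pow (expand M p), expand_X, mul_pow, C_pow]
      ring⟩) Finset.univ hr
  have h3 := Jk_mul h2 (d' := 0) (g := -((r + 1 : ℕ) : M[X])) (by
    rw [natDegree_neg, natDegree_natCast])
  rw [add_zero] at h3
  have e : gA p (r + 1) inv c - ((r + 1 : ℕ) : M[X]) * ((∑ b, C (c b) * X ^ (b : ℕ)) ^ r *
      -(tP p (fun i => C (inv i)) Finset.univ
        (fun b : Fin (a + 1) => C (c b) * X ^ (b : ℕ))).coeff p) =
      -((r + 1 : ℕ) : M[X]) * (((r.factorial : ℕ) : M[X]) * (tP p (fun i => C (inv i)) Finset.univ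
        (fun b : Fin (a + 1) => C (c b) * X ^ (b : ℕ))).coeff (p + r) -
      (∑ b, C (c b) * X ^ (b : ℕ)) ^ r * (tP p (fun i => C (inv i)) Finset.univ
        (fun b : Fin (a + 1) => C (c b) * X ^ (b : ℕ))).coeff p) := by
    unfold gA
    have e1 : r + 1 + (p - 1) = p + r := by
      have := hp.out.pos
      omega
    rw [e1, Ep_eq, Nat.factorial_succ, C_neg, map_natCast, Nat.cast_mul]
    ring
  rw [e]
  exact h3

end digit

end Pool.Agent.K4H5.BD
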