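import Pool.Agent.K4H5.BD.Laur
import Pool.Agent.K4H5.BD.Tru

/-!
The operator of Cartier at a branch of a curve.
-/

set_option autoImplicit false
set_option linter.unusedSectionVars false

open Polynomial

namespace Pool.Agent.K4H5.BD

section val

variable {K : Type} [Field K]

/-- the value of a polynomial at a Laurent series -/
noncomputable def evT (T : LaurentSeries K) : K[X] →+* LaurentSeries K :=
  eval₂RingHom (HahnSeries.C : K →+* LaurentSeries K) T

/-- the value of a polynomial in two variables at a pair of Laurent series -/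
noncomputable def val (T Y : LaurentSeries K) : K[X][X] →+* LaurentSeries K :=
  eval₂RingHom (evT T) Y

theorem evT_C (T : LaurentSeries K) (a : K) : evT T (C a) = HahnSeries.C a := by
  unfold evT
  rw [coe_eval₂RingHom, eval₂_C]

theorem evT_X (T : LaurentSeries K) : evT T X = T := by
  unfold evT
  rw [coe_eval₂RingHom, eval₂_X]

theorem val_eq (T Y : LaurentSeries K) (g : K[X][X]) : val T Y g = (g.map (evT T)).eval Y := by
  unfold val
  rw [coe_eval₂RingHom, eval_map]

theorem lo_evT {T : LaurentSeries K} {A N : ℤ} (hT : lo A T) (g : K[X])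
    (h : ∀ j : ℕ, g.coeff j ≠ 0 → N ≤ j * A) : lo N (evT T g) := by
  have h1 : evT T g = ∑ j ∈ g.support, HahnSeries.C (g.coeff j) * T ^ j := by
    unfold evT
    rw [coe_eval₂RingHom, eval₂_eq_sum, sum_def]
  rw [h1]
  refine lo_sum _ fun j hj => ?_
  rw [mem_support_iff] at hj
  have h2 := lo_mul (lo_C (g.coeff j)) (lo_pow hT j)
  rw [zero_add] at h2
  exact lo_mono h2 (h j hj)

end val

section loc

variable {K : Type} [Field K] {p : ℕ} [hp : Fact p.Prime] [CharP K p]

/-- the operator of Cartier of the line -/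
noncomputable def Dt (K : Type) [Field K] (p : ℕ) [Fact p.Prime] [CharP K p] : Car p K[X] :=
  (Car.base K p).poly

/-- the operator of Cartier of the plane -/
noncomputable def Dx (K : Type) [Field K] (p : ℕ) [Fact p.Prime] [CharP K p] : Car p K[X][X] :=
  (Dt K p).poly

/-- the twist -/
noncomputable abbrev sf (K : Type) [Field K] (p : ℕ) [Fact p.Prime] [CharP K p] :
    LaurentSeries K →+* LaurentSeries K := sg (frobenius K p)

theorem cL_C_mul (a : K) (h : LaurentSeries K) :
    cL p hp.out.pos (HahnSeries.C a * h) = HahnSeries.C a * cL p hp.out.pos h := by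
  have h1 : (HahnSeries.C a : LaurentSeries K) = EL K p hp.out.pos (HahnSeries.C a) := by
    rw [HahnSeries.C_apply, EL_single, mul_zero]
  conv_lhs => rw [h1, cL_EL]

theorem cL_powp (v h : LaurentSeries K) :
    cL p hp.out.pos (v ^ p * h) = sf K p v * cL p hp.out.pos h := by
  rw [pow_eq_EL, cL_EL]

/-- the forms on the line -/
theorem cL_evT (T : LaurentSeries K) (g : K[X]) :
    cL p hp.out.pos (evT T g * th T) = evT (sf K p T) ((Dt K p).c g) * th (sf K p T) := by
  have hp1 := hp.out.one_lt
  induction g using Polynomial.induction_on' with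
  | add a b ha hb => rw [map_add, add_mul, map_add, ha, hb, map_add, map_add, add_mul]
  | monomial n a =>
    have e1 : evT T (monomial n a) = HahnSeries.C a * T ^ n := by
      rw [← C_mul_X_pow_eq_monomial, map_mul, map_pow, evT_C, evT_X]
    have hr : n % p < p := Nat.mod_lt _ hp.out.pos
    have hn : n = p * (n / p) + n % p := (Nat.div_add_mod n p).symm
    have e2 : T ^ n * th T = (T ^ (n / p)) ^ p * (T ^ (n % p) * th T) := by
      rw [← mul_assoc, ← pow_mul, ← pow_add, mul_comm (n / p) p, ← hn]
    rw [e1, mul_assoc, cL_C_mul, e2, cL_powp]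
    by_cases h : n % p = p - 1
    · have e3 : (Dt K p).c (monomial n a) = monomial (n / p) a := by
        ext i
        unfold Dt
        rw [Car.coeff_c, coeff_monomial, coeff_monomial]
        show (if n = p * i + (p - 1) then a else 0) = if n / p = i then a else 0
        by_cases h2 : n / p = i
        · rw [if_pos h2, if_pos]
          rw [← h2, ← h]
          exact hn
        · rw [if_neg h2, if_neg]
          intro h3
          apply h2
          rw [h3]
          rw [Nat.mul_add_div hp.out.pos, Nat.div_eq_of_lt (by omega), add_zero]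
      rw [h, cL_log, e3, ← C_mul_X_pow_eq_monomial, map_mul, map_pow (sf K p), map_pow (evT _), evT_C,
        evT_X]
      ring
    · have e3 : (Dt K p).c (monomial n a) = 0 := by
        ext i
        unfold Dt
        rw [Car.coeff_c, coeff_monomial, coeff_zero]
        show (if n = p * i + (p - 1) then a else 0) = 0
        rw [if_neg]
        intro h3
        apply h
        rw [h3, Nat.mul_add_mod, Nat.mod_eq_of_lt (by omega)]
      have e4 : cL p hp.out.pos (T ^ (n % p) * th T) = 0 := by
        have h5 := th_pow T (n % p + 1)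
        rw [Nat.add_sub_cancel] at h5
        have h6 := cL_th (p := p) (T ^ (n % p + 1))
        rw [h5, mul_assoc, ← nsmul_eq_mul, map_nsmul, nsmul_eq_mul] at h6
        refine (mul_eq_zero.1 h6).resolve_left ?_
        intro h7
        rw [CharP.cast_eq_zero_iff (LaurentSeries K) p] at h7
        have := Nat.le_of_dvd (by omega) h7
        omega
      rw [e4, e3, map_zero, mul_zero, mul_zero, zero_mul]

/-- the forms on the plane -/
theorem c_evT (T : LaurentSeries K) (G : K[X][X]) :
    (Car.laur K p).poly.c (G.map (evT T) * C (th T)) =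
      ((Dx K p).c G).map (evT (sf K p T)) * C (th (sf K p T)) := by
  ext1 i
  rw [Car.coeff_c, coeff_mul_C, coeff_map, coeff_mul_C, coeff_map]
  unfold Dx
  rw [Car.coeff_c]
  exact cL_evT T _

variable {g H Θ : K[X][X]} {T Y : LaurentSeries K}

/-- the sum of the local formula -/
noncomputable def Wl (p : ℕ) (H : K[X][X]) (T Y : LaurentSeries K) : LaurentSeries K :=
  (H.map (evT T) * C (th T) * cr p X (C (-Y))).coeff (p - 1)

theorem coeff_cr (y : LaurentSeries K) (k : ℕ) :
    (cr p X (C y) : (LaurentSeries K)[X]).coeff k =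
      if 0 < k ∧ k < p then y ^ (p - k) * ((p.choose k / p : ℕ) : LaurentSeries K) else 0 := by
  unfold cr
  rw [finsetSum_coeff]
  have h1 : ∀ j ∈ Finset.Ioo 0 p, ((X : (LaurentSeries K)[X]) ^ j * C y ^ (p - j) *
      ((p.choose j / p : ℕ) : (LaurentSeries K)[X])).coeff k =
      if j = k then y ^ (p - j) * ((p.choose j / p : ℕ) : LaurentSeries K) else 0 := by
    intro j _
    rw [← map_natCast (C : LaurentSeries K →+* (LaurentSeries K)[X]), ← C_pow, mul_assoc, ← C_mul,
      mul_comm, coeff_C_mul_X_pow]
    by_cases h : j = k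
    · rw [if_pos h, if_pos h.symm]
    · rw [if_neg h, if_neg (Ne.symm h)]
  rw [Finset.sum_congr rfl h1, Finset.sum_ite_eq']
  simp only [Finset.mem_Ioo]

theorem natDegree_cr (y : LaurentSeries K) :
    (cr p X (C y) : (LaurentSeries K)[X]).natDegree ≤ p - 1 := by
  rw [natDegree_le_iff_coeff_eq_zero]
  intro k hk
  rw [coeff_cr, if_neg (by omega)]

/-- the formula at a branch -/
theorem local_formula (hΘ : IsTh p g Θ) (hH : H.natDegree + 1 < p) (h0 : val T Y g = 0) :
    val (sf K p T) (sf K p Y) ((Dx K p).c (H * Θ)) * th (sf K p T) =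
      sf K p (val T Y (derivative g)) * cL p hp.out.pos (Wl p H T Y) := by
  have hp1 := hp.out.one_lt
  set D := (Car.laur K p).poly with hD
  have e0 : val (sf K p T) (sf K p Y) ((Dx K p).c (H * Θ)) * th (sf K p T) =
      (D.c ((H * Θ).map (evT T) * C (th T))).eval (sf K p Y) := by
    rw [c_evT, eval_mul, eval_C, val_eq]
  have h1 : IsRoot (g.map (evT T)) Y := by
    rw [IsRoot.def, ← val_eq, h0]
  obtain ⟨h, hh⟩ := dvd_iff_isRoot.2 h1
  have hder : val T Y (derivative g) = h.eval Y := by
    rw [val_eq, ← derivative_map, hh, derivative_mul, derivative_sub, derivative_X, derivative_C,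
      eval_add, eval_mul, eval_mul, eval_sub, eval_sub, eval_X, eval_C, eval_one, eval_zero]
    ring
  obtain ⟨Θh, hΘh⟩ := exists_th (M := LaurentSeries K) p h
  have hlin : IsTh p (X - C Y : (LaurentSeries K)[X]) (cr p X (C (-Y))) := by
    have h2 := (IsTh.mono (p := p) (1 : LaurentSeries K) 1).add
      (IsTh.mono (p := p) (-Y : LaurentSeries K) 0)
    rw [C_1, one_mul, pow_one, pow_zero, mul_one, zero_add, zero_add] at h2
    have e : (X : (LaurentSeries K)[X]) + C (-Y) = X - C Y := by
      rw [C_neg]
      ring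
    rwa [e] at h2
  have h3 := hlin.mul hΘh
  rw [← hh] at h3
  obtain ⟨v, hv⟩ := (hΘ.map (evT T)).unique h3
  have hdeg : ((H.map (evT T)) * C (th T)).natDegree + 1 < p := by
    have h4 : ((H.map (evT T)) * C (th T)).natDegree ≤ H.natDegree :=
      (natDegree_mul_C_le _ _).trans natDegree_map_le
    omega
  have e1 : (H * Θ).map (evT T) * C (th T) =
      (X - C Y) ^ p * (Θh * (H.map (evT T) * C (th T))) +
      h ^ p * (H.map (evT T) * C (th T) * cr p X (C (-Y))) +
      expand (LaurentSeries K) p v * (H.map (evT T) * C (th T)) := by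
    rw [Polynomial.map_mul, hv]
    ring
  have e2 : D.c (H.map (evT T) * C (th T) * cr p X (C (-Y))) =
      C (cL p hp.out.pos (Wl p H T Y)) := by
    ext1 i
    rw [hD, Car.coeff_c, coeff_C]
    split_ifs with hi
    · rw [hi, mul_zero, zero_add]
      rfl
    · rw [coeff_eq_zero_of_natDegree_lt, map_zero]
      have h5 : (H.map (evT T) * C (th T) * cr p X (C (-Y))).natDegree ≤
          ((H.map (evT T)) * C (th T)).natDegree + (p - 1) :=
        natDegree_mul_le.trans (Nat.add_le_add_left (natDegree_cr _) _)
      have h6 : p * 1 ≤ p * i := Nat.mul_le_mul_left _ (by omega)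
      omega
  rw [e0, e1, map_add, map_add, hD, Car.c_expand _ v _ hdeg, Car.c_pow, Car.c_pow, ← hD, e2,
    add_zero, eval_add, eval_mul, eval_mul, eval_C, hder]
  have e3 : eval (sf K p Y) (D.tw (X - C Y)) = 0 := by
    rw [hD, Car.poly_tw, Polynomial.map_sub, map_X, map_C, eval_sub, eval_X, eval_C]
    exact sub_self _
  have e4 : eval (sf K p Y) (D.tw h) = sf K p (h.eval Y) := by
    rw [hD, Car.poly_tw, eval_map]
    exact (hom_eval₂ h (RingHom.id _) (sf K p) Y).symm
  rw [e3, e4, zero_mul, zero_add]

/-- the estimate of the sum -/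
theorem lo_Wl {A A' B N : ℤ} (hT : lo A T) (hT' : lo A' (th T)) (hY : lo B Y)
    (h : ∀ e j : ℕ, (H.coeff e).coeff j ≠ 0 → N ≤ j * A + A' + (e + 1) * B) :
    lo N (Wl p H T Y) := by
  have hp1 := hp.out.one_lt
  unfold Wl
  rw [coeff_mul]
  refine lo_sum _ fun x hx => ?_
  have hx := Finset.HasAntidiagonal.mem_antidiagonal.1 hx
  rw [coeff_cr, coeff_mul_C, coeff_map]
  split_ifs with h1
  · have e : p - x.2 = x.1 + 1 := by omega
    rw [e]
    have h2 : lo ((x.1 + 1 : ℕ) * B) ((-Y) ^ (x.1 + 1)) := by
      apply lo_pow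
      intro n hn
      rw [HahnSeries.coeff_neg, hY n hn, neg_zero]
    have h3 : lo 0 ((p.choose x.2 / p : ℕ) : LaurentSeries K) := by
      rw [← map_natCast (HahnSeries.C : K →+* LaurentSeries K)]
      exact lo_C _
    have h4 : lo (N - A' - ((x.1 + 1 : ℕ) * B)) (evT T (H.coeff x.1)) := by
      apply lo_evT hT
      intro j hj
      have := h x.1 j hj
      push_cast
      omega
    have h5 := lo_mul (lo_mul h4 hT') (lo_mul h2 h3)
    have e2 : N - A' - ((x.1 + 1 : ℕ) * B) + A' + (((x.1 + 1 : ℕ) * B) + 0) = N := by ring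
    rwa [e2] at h5
  · rw [mul_zero]
    exact lo_zero _

end loc

end Pool.Agent.K4H5.BD
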