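import Pool.Agent.K4H5.BC.Main
import Pool.Agent.K4H5.BD.Bd

/-!
The bound for the order of vanishing, with an abstract bound for the degree of the polynomial of the
family.
-/

set_option autoImplicit false
set_option linter.unusedSectionVars false

open Polynomial Module

namespace Pool.Agent.K4H5.BD

open Pool.Agent.W313.Hyp Pool.Agent.W343.BSD Pool.Agent.Y709 Pool.Agent.Y709.Gen
  Pool.Agent.Y709.Lay Pool.Agent.K4H5.BC

/-- **the bounds for the factors of the Euler product** -/
theorem main_bd (k : Type) [Field k] [Fintype k] (p : ℕ) [hp : Fact p.Prime] [CharP k p]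
    {n a δ β j : ℕ} (hn : n ∣ Fintype.card k - 1) (ha : 2 ≤ a) (hj0 : 0 < j) (hj : j.Coprime n)
    (hjn : j < n) (hij : ∀ i, a * ((p ^ i * j) % n) < n) (χ : MulChar k ℂ) (hχ : orderOf χ = n)
    (f : k[X][X]) (hf : f.natDegree ≤ a)
    (hfc : ∀ b : ℕ, (f.coeff b).natDegree ≤ δ * (a - b) + β) (bd : ℕ)
    (hbd : ∀ F₀ : ℕ, 0 < F₀ → Fintype.card k = p ^ F₀ →
      (Del (AlgebraicClosure k) p F₀ (fun b : Fin (a + 1) => f.coeff b) (dig p F₀ n j) δ β).natDegree
        ≤ bd) :
    ∃ μ : ℂ → ℕ, (∀ s : Finset ℂ, ∑ ζ ∈ s, μ ζ ≤ bd) ∧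
      ∀ (G O : Type) [Group G] [Finite G] [CommRing O] [Algebra k[X] O] [MulSemiringAction G O]
        [IsGaloisGroup G k[X] O] [FaithfulSMul k[X] O] (g : ℕ) (_ : Nat.card G = p ^ g) (B : k[X])
        (_ : B ≠ 0) (_ : ∀ 𝔪 : MaximalSpectrum O, vO k 𝔪 B ≠ 0 → 𝔪.asIdeal.inertia G = ⊥)
        (s : Multiset ℂ) (_ : ∀ z ∈ s, ∃ e : ℕ, 0 < e ∧ z ^ e = 1) (H : ℂ[X])
        (_ : LB O χ f = (((s.map fun z => 1 - C ((Fintype.card k : ℂ) * z) * X).prod * H : ℂ[X]) :
          PowerSeries ℂ)),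
        (∀ (ζ : ℂ) (e : ℕ), 0 < e → ¬ p ∣ e → ζ ^ e = 1 →
          ∀ t ≤ s, (∀ z ∈ t, ∃ i : ℕ, z ^ p ^ i = ζ ^ p ^ i) → Multiset.card t ≤
            Nat.card G * μ ζ +
              ∑ P ∈ divs B, defect O G P * ((a - 1) * p ^ padicValNat p P.1.natDegree)) ∧
        Multiset.card s ≤
          Nat.card G * bd +
            ∑ P ∈ divs B, defect O G P * ((a - 1) * P.1.natDegree) := by
  classical
  have hp0 := hp.out.pos
  have hp1 := hp.out.one_lt
  have hn0 : 0 < n := by omega
  obtain ⟨⟨F₀, hF₀⟩, -, hF₀'⟩ := FiniteField.card k p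
  have hk : Fintype.card k = p ^ F₀ := hF₀'
  have hn' : n ∣ p ^ F₀ - 1 := by
    rw [← hk]
    exact hn
  set m : ℕ → ℕ := dig p F₀ n j with hmdef
  have hm : ∀ i, m (i + F₀) = m i := dig_per hp0 hn'
  have hq1 : 1 < p ^ F₀ := Nat.one_lt_pow hF₀.ne' hp1
  have hrot : ∀ i, n * rot p F₀ m i = rem p F₀ n j i * (p ^ F₀ - 1) := rot_dig hp0 hF₀ hn'
  have har : ∀ i, a * rot p F₀ m i < p ^ F₀ - 1 := by
    intro i
    have h1 : a * rem p F₀ n j i < n := hij _
    have h2 : n * (a * rot p F₀ m i) < n * (p ^ F₀ - 1) := by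
      calc n * (a * rot p F₀ m i) = a * (n * rot p F₀ m i) := by ring
        _ = (a * rem p F₀ n j i) * (p ^ F₀ - 1) := by rw [hrot]; ring
        _ < n * (p ^ F₀ - 1) := Nat.mul_lt_mul_of_pos_right h1 (by omega)
    exact Nat.lt_of_mul_lt_mul_left h2
  have hrem0 : rem p F₀ n j 0 = j := by
    unfold rem
    rw [mul_zero, pow_zero, one_mul, Nat.mod_eq_of_lt hjn]
  have hM : n * rot p F₀ m 0 = j * (p ^ F₀ - 1) := by rw [hrot, hrem0]
  have hM0 : 0 < rot p F₀ m 0 := by
    rcases Nat.eq_zero_or_pos (rot p F₀ m 0) with h | h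
    · rw [h, mul_zero] at hM
      have : 0 < j * (p ^ F₀ - 1) := Nat.mul_pos hj0 (by omega)
      omega
    · exact h
  have hKp : CharP (AlgebraicClosure k) p :=
    charP_of_injective_algebraMap (algebraMap k (AlgebraicClosure k)).injective p
  obtain ⟨R, i1, i2, i3, S, ι, hι, hroots, hint, hχι⟩ := exists_sys p k (AlgebraicClosure k) hn0 hn
    χ hχ hj hM0 (by rw [hk]; exact hM)
  let χR : MulChar k R := (S.wc (algebraMap k (AlgebraicClosure k))) ^ rot p F₀ m 0
  have hχR : ∀ u, χR u = S.w (algebraMap k (AlgebraicClosure k)) u ^ rot p F₀ m 0 := by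
    intro u
    show ((S.wc (algebraMap k (AlgebraicClosure k))) ^ rot p F₀ m 0) u = _
    rw [MulChar.pow_apply' _ hM0.ne']
    rfl
  set Δ : (AlgebraicClosure k)[X] := Del (AlgebraicClosure k) p F₀
    (fun b : Fin (a + 1) => f.coeff b) m δ β with hΔ
  have hΔdeg : Δ.natDegree ≤ bd := hbd F₀ hF₀ hk
  set P : ℂ → Prop := fun ζ => ∃ x, x ≠ 0 ∧ ι (S.τ x) = ζ with hP
  have hx : ∀ ζ : ℂ, ∃ x : AlgebraicClosure k, P ζ → x ≠ 0 ∧ ι (S.τ x) = ζ := by
    intro ζ
    by_cases h : P ζ
    · obtain ⟨x, hx⟩ := h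
      exact ⟨x, fun _ => hx⟩
    · exact ⟨0, fun h' => absurd h' h⟩
  choose x hx using hx
  refine ⟨fun ζ => if P ζ then Δ.rootMultiplicity (x ζ)⁻¹ else 0, ?_, ?_⟩
  · intro s
    refine le_trans ?_ hΔdeg
    rw [← Finset.sum_filter]
    have hinj : Set.InjOn (fun ζ => (x ζ)⁻¹) ((s.filter P : Finset ℂ) : Set ℂ) := by
      intro z hz z' hz' h
      have h1 := (hx z (Finset.mem_filter.1 (Finset.mem_coe.1 hz)).2).2
      have h2 := (hx z' (Finset.mem_filter.1 (Finset.mem_coe.1 hz')).2).2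
      have h3 : x z = x z' := inv_injective h
      rw [← h1, ← h2, h3]
    rw [← Finset.sum_image (f := fun y => Δ.rootMultiplicity y) hinj]
    exact sum_rootMult_le Δ _
  · intro G O _ _ _ _ _ _ _ g hG B hB hun s hs H hL
    set Q : R := (p : R) ^ F₀ with hQ
    have hQ0 : Q ≠ 0 := pow_ne_zero _ (Nat.cast_ne_zero.2 hp0.ne')
    have hιQ : ι Q = (Fintype.card k : ℂ) := by
      rw [hQ, map_pow, map_natCast, hk, Nat.cast_pow]
    -- the lifts of the roots of unity
    have hzz : ∀ z : ℂ, ∃ r : R, (∃ e : ℕ, 0 < e ∧ z ^ e = 1) → ι r = z := by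
      intro z
      by_cases h : ∃ e : ℕ, 0 < e ∧ z ^ e = 1
      · obtain ⟨e, he, hz⟩ := h
        obtain ⟨r, hr⟩ := hint z (IsIntegral.of_pow he (by rw [hz]; exact isIntegral_one))
        exact ⟨r, fun _ => hr⟩
      · exact ⟨0, fun h' => absurd h' h⟩
    choose zz hzz using hzz
    have hzz0 : ∀ z : ℂ, (∃ e : ℕ, 0 < e ∧ z ^ e = 1) → S.π (zz z) ≠ 0 := by
      intro z hz h
      have h1 := hzz z hz
      obtain ⟨e, he, h2⟩ := hz
      have h3 : zz z ^ e = 1 := hι (by rw [map_pow, h1, h2, map_one])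
      have h4 := congrArg S.π h3
      rw [map_pow, h, zero_pow he.ne', map_one] at h4
      exact zero_ne_one h4
    set Fac : R[X] := (s.map fun z => (1 - C (zz z) * X : R[X])).prod with hFac
    have hFac0 : PowerSeries.constantCoeff (Fac : PowerSeries R) = 1 := by
      rw [Polynomial.constantCoeff_coe, coeff_zero_eq_eval_zero, hFac, eval_multiset_prod,
        Multiset.map_map]
      refine Multiset.prod_eq_one ?_
      intro c hc
      rw [Multiset.mem_map] at hc
      obtain ⟨z, -, rfl⟩ := hc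
      simp
    have hFacι : PowerSeries.map ι (PowerSeries.rescale Q (Fac : PowerSeries R)) =
        (((s.map fun z => 1 - C ((Fintype.card k : ℂ) * z) * X).prod : ℂ[X]) :
          PowerSeries ℂ) := by
      have e1 : ∀ c : R, PowerSeries.rescale Q (PowerSeries.C c) = PowerSeries.C c := by
        intro c
        ext n
        rw [PowerSeries.coeff_rescale, PowerSeries.coeff_C]
        split_ifs with h
        · rw [h, pow_zero, one_mul]
        · rw [mul_zero]
      rw [hFac, ← Polynomial.coeToPowerSeries.ringHom_apply,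
        ← Polynomial.coeToPowerSeries.ringHom_apply, map_multiset_prod, map_multiset_prod,
        map_multiset_prod, map_multiset_prod, Multiset.map_map, Multiset.map_map, Multiset.map_map,
        Multiset.map_map]
      congr 1
      refine Multiset.map_congr rfl fun z hz => ?_
      simp only [Function.comp, Polynomial.coeToPowerSeries.ringHom_apply,
        Polynomial.coe_C, Polynomial.coe_X, map_sub,
        map_one, map_mul, e1, PowerSeries.rescale_X, PowerSeries.map_C, PowerSeries.map_X, hιQ,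
        hzz z (hs z hz)]
      ring
    have hroot := fun P : MI k => exists_root_MI (K := AlgebraicClosure k) P
    choose ρ hρ using hroot
    obtain ⟨LD, L1, hc, h1, -, -⟩ := global_bc S G hF₀ hk hm har ha hM0 χR hχR hG hf hfc ρ hρ B hB
      hun
    -- the quotient
    set W : PowerSeries R := L1 * PowerSeries.invOfUnit LD 1 *
      PowerSeries.invOfUnit (Fac : PowerSeries R) 1 with hW
    have hinv : LD * PowerSeries.invOfUnit LD 1 = 1 :=
      PowerSeries.mul_invOfUnit LD 1 (by rw [hc]; rfl)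
    have hinvF : (Fac : PowerSeries R) * PowerSeries.invOfUnit (Fac : PowerSeries R) 1 = 1 :=
      PowerSeries.mul_invOfUnit (Fac : PowerSeries R) 1 (by rw [hFac0]; rfl)
    have hWr : (Fac : PowerSeries R) * W * LD = L1 := by
      rw [hW]
      linear_combination (L1 * ((Fac : PowerSeries R) *
        PowerSeries.invOfUnit (Fac : PowerSeries R) 1)) * hinv + L1 * hinvF
    have hLD0 : PowerSeries.rescale Q LD ≠ 0 := by
      intro h
      have h2 := congrArg (PowerSeries.coeff 0) h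
      rw [PowerSeries.coeff_rescale, pow_zero, one_mul,
        PowerSeries.coeff_zero_eq_constantCoeff_apply, hc, map_zero] at h2
      exact one_ne_zero h2
    have hLB : LB O χR f = PowerSeries.rescale Q ((Fac : PowerSeries R) * W) := by
      apply mul_right_cancel₀ hLD0
      rw [h1, ← map_mul, hWr]
    have hmap := map_LB (O := O) G ι χR χ (fun u => by rw [hχι, hχR]) f
    have hWH : PowerSeries.map ι (PowerSeries.rescale Q W) = (H : PowerSeries ℂ) := by
      rw [hLB, map_mul, map_mul, hFacι, hL, Polynomial.coe_mul] at hmap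
      refine mul_left_cancel₀ ?_ hmap
      rw [← hFacι]
      intro h
      have h2 := congrArg (PowerSeries.coeff 0) h
      rw [PowerSeries.coeff_map, PowerSeries.coeff_rescale, pow_zero, one_mul,
        PowerSeries.coeff_zero_eq_constantCoeff_apply, hFac0, map_one, map_zero] at h2
      exact one_ne_zero h2
    have hW0 : ∀ i, H.natDegree < i → PowerSeries.coeff i W = 0 := by
      intro i hi
      have h2 := congrArg (PowerSeries.coeff i) hWH
      rw [PowerSeries.coeff_map, PowerSeries.coeff_rescale, Polynomial.coeff_coe,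
        coeff_eq_zero_of_natDegree_lt hi, map_eq_zero_iff ι hι] at h2
      exact (mul_eq_zero.1 h2).resolve_left (pow_ne_zero _ hQ0)
    have hWV : ((PowerSeries.trunc (H.natDegree + 1) W : R[X]) : PowerSeries R) = W := by
      ext n
      rw [Polynomial.coeff_coe, PowerSeries.coeff_trunc]
      split_ifs with h
      · rfl
      · rw [hW0 n (by omega)]
    obtain ⟨hord, hdeg⟩ := order_gen S G hF₀ hk hm har ha hM0 χR hχR hG hf hfc B hB hun Fac
      (PowerSeries.trunc (H.natDegree + 1) W) (by rw [hLB, Polynomial.coe_mul, hWV])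
    have hFπ : Fac.map S.π =
        (s.map fun z => (1 - C (S.π (zz z)) * X : (AlgebraicClosure k)[X])).prod := by
      rw [hFac, ← coe_mapRingHom, map_multiset_prod, Multiset.map_map]
      congr 1
      refine Multiset.map_congr rfl fun z hz => ?_
      simp only [Function.comp, map_sub, map_one, map_mul, coe_mapRingHom, map_C, map_X]
    obtain ⟨hfd, hfr⟩ := fac_facts s (fun z => S.π (zz z)) (fun z hz => hzz0 z (hs z hz))
    rw [← hFπ] at hfd hfr
    constructor
    · intro ζ e he hpe hζ t hts ht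
      have hPζ : P ζ := hroots ζ e he hpe hζ
      obtain ⟨hx0, hxζ⟩ := hx ζ hPζ
      dsimp only
      rw [if_pos hPζ]
      refine le_trans ?_ (hord (x ζ)⁻¹ (inv_ne_zero hx0))
      rw [hfr]
      have h2 : Multiset.card t ≤ (t.map fun z => (S.π (zz z))⁻¹).count (x ζ)⁻¹ := by
        have h3 : t.map (fun z => (S.π (zz z))⁻¹) = Multiset.replicate (Multiset.card t) (x ζ)⁻¹ := by
          rw [Multiset.eq_replicate]
          refine ⟨Multiset.card_map _ _, ?_⟩
          intro y hy
          rw [Multiset.mem_map] at hy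
          obtain ⟨z, hz, rfl⟩ := hy
          obtain ⟨i, hi⟩ := ht z hz
          have hzr := hzz z (hs z (Multiset.mem_of_le hts hz))
          have h4 : zz z ^ p ^ i = S.τ (x ζ) ^ p ^ i :=
            hι (by rw [map_pow, map_pow, hzr, hxζ, hi])
          have h5 := congrArg S.π h4
          rw [map_pow, map_pow, S.hτ] at h5
          congr 1
          have h6 : (S.π (zz z) - x ζ) ^ p ^ i = 0 := by
            rw [sub_pow_char_pow, h5, sub_self]
          exact sub_eq_zero.1 (pow_eq_zero_iff (pow_ne_zero i hp0.ne') |>.1 h6)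
        rw [h3, Multiset.count_replicate_self]
      exact h2.trans (Multiset.count_le_of_le _ (Multiset.map_le_map hts))
    · rw [← hfd]
      exact hdeg.trans (Nat.add_le_add_right (Nat.mul_le_mul_left _ hΔdeg) _)

/-- the small numbers -/
def Sml (p n j : ℕ) (D : ℤ) : Prop := ∀ i : ℕ, D * ((p ^ i * j % n : ℕ) : ℤ) < n

/-- **the bounds for the factors of the Euler product by the forms on the branch curve** -/
theorem main_adj (k : Type) [Field k] [Fintype k] (p : ℕ) [hp : Fact p.Prime] [CharP k p]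
    {n a j : ℕ} (hn : n ∣ Fintype.card k - 1) (ha : 2 ≤ a) (hj0 : 0 < j) (hj : j.Coprime n)
    (hjn : j < n) (hij : ∀ i, a * ((p ^ i * j) % n) < n) (χ : MulChar k ℂ) (hχ : orderOf χ = n)
    {κ : Type} [Fintype κ] (g : κ → k[X][X]) (E : κ → ℕ) (f : k[X][X]) (hfg : f = ∏ l, g l ^ E l)
    (hf : f.natDegree ≤ a) (hit : ∀ i, degT f * ((p ^ i * j) % n) < n) :
    ∃ μ : ℂ → ℕ, (∀ s : Finset ℂ, ∑ ζ ∈ s, μ ζ ≤
        ∑ l, finrank (AlgebraicClosure k) (Adj (Sml p n j) (tw2 (algebraMap k (AlgebraicClosure k)) f)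
          (tw2 (algebraMap k (AlgebraicClosure k)) (g l)))) ∧
      ∀ (G O : Type) [Group G] [Finite G] [CommRing O] [Algebra k[X] O] [MulSemiringAction G O]
        [IsGaloisGroup G k[X] O] [FaithfulSMul k[X] O] (g' : ℕ) (_ : Nat.card G = p ^ g') (B : k[X])
        (_ : B ≠ 0) (_ : ∀ 𝔪 : MaximalSpectrum O, vO k 𝔪 B ≠ 0 → 𝔪.asIdeal.inertia G = ⊥)
        (s : Multiset ℂ) (_ : ∀ z ∈ s, ∃ e : ℕ, 0 < e ∧ z ^ e = 1) (H : ℂ[X])
        (_ : LB O χ f = (((s.map fun z => 1 - C ((Fintype.card k : ℂ) * z) * X).prod * H : ℂ[X]) :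
          PowerSeries ℂ)),
        (∀ (ζ : ℂ) (e : ℕ), 0 < e → ¬ p ∣ e → ζ ^ e = 1 →
          ∀ t ≤ s, (∀ z ∈ t, ∃ i : ℕ, z ^ p ^ i = ζ ^ p ^ i) → Multiset.card t ≤
            Nat.card G * μ ζ +
              ∑ P ∈ divs B, defect O G P * ((a - 1) * p ^ padicValNat p P.1.natDegree)) ∧
        Multiset.card s ≤
          Nat.card G * (∑ l, finrank (AlgebraicClosure k) (Adj (Sml p n j)
            (tw2 (algebraMap k (AlgebraicClosure k)) f)
            (tw2 (algebraMap k (AlgebraicClosure k)) (g l)))) +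
            ∑ P ∈ divs B, defect O G P * ((a - 1) * P.1.natDegree) := by
  classical
  have hp0 := hp.out.pos
  have hp1 := hp.out.one_lt
  have hn0 : 0 < n := by omega
  refine main_bd k p hn ha hj0 hj hjn hij χ hχ f hf (δ := 0) (β := degT f)
    (fun b => by rw [zero_mul, zero_add]; exact natDegree_le_degT f b) _ ?_
  intro F₀ hF₀ hk
  have hn' : n ∣ p ^ F₀ - 1 := by
    rw [← hk]
    exact hn
  have hm : ∀ i, dig p F₀ n j (i + F₀) = dig p F₀ n j i := dig_per hp0 hn'
  have hq1 : 1 < p ^ F₀ := Nat.one_lt_pow hF₀.ne' hp1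
  have hrot : ∀ i, n * rot p F₀ (dig p F₀ n j) i = rem p F₀ n j i * (p ^ F₀ - 1) :=
    rot_dig hp0 hF₀ hn'
  have hrotZ : ∀ i, (n : ℤ) * rot p F₀ (dig p F₀ n j) i = rem p F₀ n j i * ((p : ℤ) ^ F₀ - 1) := by
    intro i
    have := congrArg (Nat.cast : ℕ → ℤ) (hrot i)
    push_cast [Nat.cast_sub hq1.le] at this
    exact this
  have hqZ : (0 : ℤ) < (p : ℤ) ^ F₀ - 1 := by
    have : ((1 : ℕ) : ℤ) < ((p ^ F₀ : ℕ) : ℤ) := by exact_mod_cast hq1
    push_cast at this
    omega
  have h𝒟 : ∀ D, Sml p n j D → ∀ i, D * (rot p F₀ (dig p F₀ n j) i : ℤ) < (p : ℤ) ^ F₀ - 1 := by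
    intro D hD i
    have h1 : D * (rem p F₀ n j i : ℤ) < n := hD _
    have h2 : (n : ℤ) * (D * (rot p F₀ (dig p F₀ n j) i : ℤ)) < n * ((p : ℤ) ^ F₀ - 1) := by
      calc (n : ℤ) * (D * (rot p F₀ (dig p F₀ n j) i : ℤ)) =
          D * (n * (rot p F₀ (dig p F₀ n j) i : ℤ)) := by ring
        _ = (D * (rem p F₀ n j i : ℤ)) * ((p : ℤ) ^ F₀ - 1) := by rw [hrotZ]; ring
        _ < n * ((p : ℤ) ^ F₀ - 1) := mul_lt_mul_of_pos_right h1 hqZ
    exact lt_of_mul_lt_mul_left h2 (by positivity)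
  have hrem0 : rem p F₀ n j 0 = j := by
    unfold rem
    rw [mul_zero, pow_zero, one_mul, Nat.mod_eq_of_lt hjn]
  have hM0 : 0 < rot p F₀ (dig p F₀ n j) 0 := by
    have hM := hrot 0
    rw [hrem0] at hM
    rcases Nat.eq_zero_or_pos (rot p F₀ (dig p F₀ n j) 0) with h | h
    · rw [h, mul_zero] at hM
      have : 0 < j * (p ^ F₀ - 1) := Nat.mul_pos hj0 (by omega)
      omega
    · exact h
  have hKp : CharP (AlgebraicClosure k) p :=
    charP_of_injective_algebraMap (algebraMap k (AlgebraicClosure k)).injective p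
  have hSa : Sml p n j a := by
    intro i
    exact_mod_cast hij i
  have hama : ∀ i, a * dig p F₀ n j i < p := by
    intro i
    have := adm_digit hF₀ hm (h𝒟 _ hSa) i
    exact_mod_cast this
  refine natDegree_Del_adj hF₀ hm hM0 (Sml p n j) h𝒟 g E hfg hf hama ?_ ?_ _
  · intro i
    exact_mod_cast hit i
  · intro i
    have h1 : f.natDegree * (p ^ i * j % n) ≤ a * (p ^ i * j % n) := Nat.mul_le_mul_right _ hf
    have h2 := hij i
    have h3 : f.natDegree * (p ^ i * j % n) < n := by omega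
    exact_mod_cast h3

end Pool.Agent.K4H5.BD
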