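import Pool.Agent.K4H5.BD.Local
import Pool.Agent.K4H5.BC.Fam

/-!
Weights of polynomials in two variables.
-/

set_option autoImplicit false
set_option linter.unusedSectionVars false

open Polynomial

namespace Pool.Agent.K4H5.BD

open Pool.Agent.K4H5.BC Pool.Agent.Y709

section wt

variable {K : Type} [CommRing K]

/-- the weights of the monomials are at most `D` -/
def Wle (w : ℤ × ℤ) (D : ℤ) (f : K[X][X]) : Prop :=
  ∀ e j : ℕ, (f.coeff e).coeff j ≠ 0 → w.1 * j + w.2 * e ≤ D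

theorem Wle.mono {w : ℤ × ℤ} {D D' : ℤ} {f : K[X][X]} (h : Wle w D f) (hD : D ≤ D') : Wle w D' f :=
  fun e j hne => (h e j hne).trans hD

theorem Wle_zero (w : ℤ × ℤ) (D : ℤ) : Wle w D (0 : K[X][X]) := by
  intro e j h
  rw [coeff_zero, coeff_zero] at h
  exact absurd rfl h

theorem Wle.add {w : ℤ × ℤ} {D : ℤ} {f g : K[X][X]} (hf : Wle w D f) (hg : Wle w D g) :
    Wle w D (f + g) := by
  intro e j h
  rw [coeff_add, coeff_add] at h
  by_cases h1 : (f.coeff e).coeff j = 0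
  · refine hg e j fun h2 => h ?_
    rw [h1, h2, add_zero]
  · exact hf e j h1

theorem Wle_sum {ι : Type} (s : Finset ι) {w : ℤ × ℤ} {D : ℤ} {f : ι → K[X][X]}
    (h : ∀ i ∈ s, Wle w D (f i)) : Wle w D (∑ i ∈ s, f i) := by
  classical
  induction s using Finset.induction_on with
  | empty =>
    rw [Finset.sum_empty]
    exact Wle_zero w D
  | insert a s ha ih =>
    rw [Finset.sum_insert ha]
    exact (h a (Finset.mem_insert_self a s)).add (ih fun i hi => h i (Finset.mem_insert_of_mem hi))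

theorem Wle.mul {w : ℤ × ℤ} {D D' : ℤ} {f g : K[X][X]} (hf : Wle w D f) (hg : Wle w D' g) :
    Wle w (D + D') (f * g) := by
  intro e j h
  rw [coeff_mul, finsetSum_coeff] at h
  obtain ⟨x, hx, h1⟩ := Finset.exists_ne_zero_of_sum_ne_zero h
  rw [coeff_mul] at h1
  obtain ⟨y, hy, h2⟩ := Finset.exists_ne_zero_of_sum_ne_zero h1
  have hx := Finset.HasAntidiagonal.mem_antidiagonal.1 hx
  have hy := Finset.HasAntidiagonal.mem_antidiagonal.1 hy
  have h3 := hf _ _ (left_ne_zero_of_mul h2)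
  have h4 := hg _ _ (right_ne_zero_of_mul h2)
  rw [← hx, ← hy]
  push_cast
  linarith

theorem Wle_CC (w : ℤ × ℤ) (a : K) : Wle w 0 (C (C a) : K[X][X]) := by
  intro e j h
  rw [coeff_C] at h
  split_ifs at h with h1
  · rw [coeff_C] at h
    split_ifs at h with h2
    · rw [h1, h2]
      simp
    · exact absurd rfl h
  · rw [coeff_zero] at h
    exact absurd rfl h

theorem Wle_one (w : ℤ × ℤ) : Wle w 0 (1 : K[X][X]) := by
  have := Wle_CC w (1 : K)
  rwa [C_1, C_1] at this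

theorem Wle.pow {w : ℤ × ℤ} {D : ℤ} {f : K[X][X]} (hf : Wle w D f) (n : ℕ) :
    Wle w (n * D) (f ^ n) := by
  induction n with
  | zero =>
    rw [pow_zero, Nat.cast_zero, zero_mul]
    exact Wle_one w
  | succ n ih =>
    rw [pow_succ]
    have h1 := ih.mul hf
    have e : (n : ℤ) * D + D = ((n + 1 : ℕ) : ℤ) * D := by push_cast; ring
    rwa [e] at h1

theorem Wle_prod {ι : Type} (s : Finset ι) {w : ℤ × ℤ} {D : ι → ℤ} {f : ι → K[X][X]}
    (h : ∀ i ∈ s, Wle w (D i) (f i)) : Wle w (∑ i ∈ s, D i) (∏ i ∈ s, f i) := by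
  classical
  induction s using Finset.induction_on with
  | empty =>
    rw [Finset.prod_empty, Finset.sum_empty]
    exact Wle_one w
  | insert a s ha ih =>
    rw [Finset.prod_insert ha, Finset.sum_insert ha]
    exact (h a (Finset.mem_insert_self a s)).mul (ih fun i hi => h i (Finset.mem_insert_of_mem hi))

theorem Wle_Ep {p a : ℕ} {w : ℤ × ℤ} {D : ℤ} (r : ℕ) (inv : ℕ → K) (c : Fin (a + 1) → K[X])
    (hc : ∀ (b : Fin (a + 1)) (j : ℕ), (c b).coeff j ≠ 0 → w.1 * j + w.2 * (b : ℕ) ≤ D) :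
    Wle w (r * D) (Ep p r (fun i => C (inv i)) c) := by
  unfold Ep
  refine Wle_sum _ fun v hv => ?_
  rw [Finset.mem_filter] at hv
  have e : (C (∏ b, C (inv (v b)) * c b ^ (v b : ℕ)) * X ^ (∑ b : Fin (a + 1), (b : ℕ) * (v b : ℕ)) :
      K[X][X]) = C (C (∏ b, inv (v b))) * ∏ b : Fin (a + 1), (C (c b) * X ^ (b : ℕ)) ^ (v b : ℕ) := by
    rw [Finset.prod_mul_distrib, C_mul, map_prod, map_prod, map_prod]
    simp only [mul_pow]
    rw [Finset.prod_mul_distrib, ← Finset.prod_pow_eq_pow_sum, mul_assoc]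
    simp only [map_prod, map_pow, pow_mul]
  rw [e]
  have h1 : ∀ b : Fin (a + 1), Wle w D (C (c b) * X ^ (b : ℕ)) := by
    intro b e' j h
    rw [coeff_C_mul_X_pow] at h
    split_ifs at h with h2
    · rw [h2]
      exact hc b j h
    · rw [coeff_zero] at h
      exact absurd rfl h
  have h2 := (Wle_CC w (∏ b, inv (v b))).mul
    (Wle_prod Finset.univ fun b _ => (h1 b).pow (v b : ℕ))
  rw [zero_add, ← Finset.sum_mul] at h2
  have e2 : (∑ b, ((v b : ℕ) : ℤ)) = r := by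
    rw [← hv.2]
    push_cast
    rfl
  rwa [e2] at h2

theorem Wle_gA {p a : ℕ} {w : ℤ × ℤ} {D : ℤ} (s : ℕ) (inv : ℕ → K) (c : Fin (a + 1) → K[X])
    (hc : ∀ (b : Fin (a + 1)) (j : ℕ), (c b).coeff j ≠ 0 → w.1 * j + w.2 * (b : ℕ) ≤ D) :
    Wle w ((s + (p - 1) : ℕ) * D) (gA p s (fun i => C (inv i)) c) := by
  unfold gA
  have e : (C (-((s.factorial : ℕ) : K[X])) : K[X][X]) = C (C (-((s.factorial : ℕ) : K))) := by
    rw [C_neg, C_neg, C_neg]
    congr 2
  rw [e]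
  have := (Wle_CC w (-((s.factorial : ℕ) : K))).mul (Wle_Ep (p := p) (w := w) (D := D)
    (s + (p - 1)) inv c hc)
  rwa [zero_add] at this

end wt

section ent

variable {K : Type} [Field K] {p : ℕ} [hp : Fact p.Prime] [CharP K p] {a m' : ℕ}

theorem coeff_Dx (H : K[X][X]) (e j : ℕ) :
    (((Dx K p).c H).coeff e).coeff j = (H.coeff (p * e + (p - 1))).coeff (p * j + (p - 1)) := by
  unfold Dx
  rw [Car.coeff_c]
  unfold Dt
  rw [Car.coeff_c]
  rfl

/-- the weights after the operator of Cartier -/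
theorem Wle_Dx {w : ℤ × ℤ} {N : ℤ} {H : K[X][X]} (h : Wle w N H) (e j : ℕ)
    (hne : (((Dx K p).c H).coeff e).coeff j ≠ 0) :
    (p : ℤ) * (w.1 * (j + 1) + w.2 * (e + 1)) ≤ N + w.1 + w.2 := by
  rw [coeff_Dx] at hne
  have h1 := h _ _ hne
  have h2 : ((p - 1 : ℕ) : ℤ) = (p : ℤ) - 1 := by
    rw [Nat.cast_sub hp.out.pos]
    rfl
  push_cast at h1
  rw [h2] at h1
  linarith

/-- the monomial of an index -/
noncomputable def mon (K : Type) [Field K] {a m' : ℕ} (x : Fin m' × (Fin (a + 1) × Unit)) : K[X][X] :=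
  C (X ^ (x.1 : ℕ)) * X ^ (x.2.1 : ℕ)

theorem entry_eq (s : ℕ) (inv : ℕ → K[X]) (c : Fin (a + 1) → K[X])
    (x' x : Fin m' × (Fin (a + 1) × Unit)) :
    kmat p m' (kA p s inv c) x' x =
      (((Dx K p).c (mon K x * gA p s inv c)).coeff x'.2.1).coeff x'.1 := by
  have hpos := hp.out.pos
  rw [coeff_Dx]
  have h0 : kmat p m' (kA p s inv c) x' x = (X ^ ((x.1 : ℕ) + 1) *
    ((X ^ ((x.2.1 : ℕ) + 1) * gA p s inv c).coeff (p * ((x'.2.1 : ℕ) + 1)))).coeff
      (p * ((x'.1 : ℕ) + 1)) := rfl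
  have e1 : p * ((x'.2.1 : ℕ) + 1) = (p * (x'.2.1 : ℕ) + (p - 1)) + 1 := by
    rw [Nat.mul_add, mul_one]
    omega
  have e2 : p * ((x'.1 : ℕ) + 1) = (p * (x'.1 : ℕ) + (p - 1)) + 1 := by
    rw [Nat.mul_add, mul_one]
    omega
  rw [h0, e1, e2, pow_succ', pow_succ', mul_assoc, mul_assoc, coeff_X_mul, coeff_X_mul]
  unfold mon
  rw [mul_assoc, coeff_C_mul]

end ent

end Pool.Agent.K4H5.BD
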